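
import Pool.Agent.N999.QL.B2

set_option autoImplicit false

/-! # Project QH (helper728), subtask SH: the choice of the parameters (helper80)

The templates are `Pool/Agent/N999/QL/B2.lean` (helper999), `Pool/Agent/N271/QG/B2.lean` (helper271) and
`Pool/Agent/N545/QG/CORE.lean` (helper545). -/

namespace Pool.Agent.N80.QH

section par

open Filter Topology
open Pool.Agent.N999.QL (floor_exp lim3)

theorem limH (A : ℕ) : Tendsto (fun ℓ : ℝ => (2 + A * Real.log ℓ) * ℓ ^ (-(107 / 6000) : ℝ))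
    atTop (𝓝 0) := by
  have h1 : Tendsto (fun ℓ : ℝ => ℓ ^ (-(107 / 6000) : ℝ)) atTop (𝓝 0) :=
    tendsto_rpow_neg_atTop (by norm_num)
  have h2 : Tendsto (fun ℓ : ℝ => Real.log ℓ / ℓ ^ (107 / 6000 : ℝ)) atTop (𝓝 0) :=
    (isLittleO_log_rpow_atTop (by norm_num)).tendsto_div_nhds_zero
  have h3 := (h1.const_mul 2).add (h2.const_mul (A : ℝ))
  simp only [mul_zero, add_zero] at h3
  refine h3.congr' ?_
  filter_upwards [eventually_gt_atTop (0 : ℝ)] with ℓ hℓ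
  rw [Real.rpow_neg hℓ.le]
  have : 0 < ℓ ^ (107 / 6000 : ℝ) := Real.rpow_pos_of_pos hℓ _
  field_simp

theorem limA (A : ℕ) : Tendsto (fun ℓ : ℝ => 2 * ℓ ^ (-(107 / 3000) : ℝ) *
    ((2 + Real.log ℓ) * (2 + A * Real.log ℓ))) atTop (𝓝 0) := by
  have h1 := limH 1
  have h2 := limH A
  have h3 := (h1.mul h2).const_mul 2
  simp only [mul_zero] at h3
  refine h3.congr' ?_
  filter_upwards [eventually_gt_atTop (0 : ℝ)] with ℓ hℓ
  have e : ℓ ^ (-(107 / 3000) : ℝ) = ℓ ^ (-(107 / 6000) : ℝ) * ℓ ^ (-(107 / 6000) : ℝ) := by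
    rw [← Real.rpow_add hℓ]
    norm_num
  rw [e]
  push_cast
  ring

theorem params (k0 K w0 A : ℕ) (C η A0 : ℝ) (hC : 0 ≤ C) (hη : 0 < η) : ∃ B0 : ℕ, ∀ B : ℕ,
    B0 ≤ B → ∃ w y M0 : ℕ, w0 ≤ w ∧ w ≤ y ∧ 1 ≤ M0 ∧ y ^ k0 ≤ B ∧ M0 ^ k0 ≤ B ∧
      Real.log y ≤ Real.log w ^ (100 * (K + 1)) ∧
      Real.log B ^ K ≤ Real.log w ^ (100 * (K + 1)) ∧
      Real.log y ^ C * Real.exp (-(Real.log M0 / (2 * Real.log y))) ≤ η ∧
      Real.log w ^ (3 / 5 : ℝ) * Real.log y ^ (-(1 / 12) : ℝ) *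
        ((2 + Real.log (Real.log y)) * (2 + A * Real.log (Real.log B))) ≤ η ∧
      1 ≤ Real.log w ∧ 1 ≤ Real.log y ∧ A0 ≤ Real.log B ∧ Real.log B ^ (K * k0) ≤ B ∧
      A * Real.log (Real.log B) ≤ Real.log w / 4 ∧ Real.log B ^ (A * k0) ≤ B ∧
      1 ≤ Real.log B := by
  obtain ⟨N, hN⟩ : ∃ N : ℕ, N = 100 * (K + 1) := ⟨_, rfl⟩
  rw [← hN]
  have t100 : Tendsto (fun ℓ : ℝ => ℓ ^ (1 / 100 : ℝ)) atTop atTop :=
    tendsto_rpow_atTop (by norm_num)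
  have t2 : Tendsto (fun ℓ : ℝ => ℓ ^ (1 / 2 : ℝ)) atTop atTop := tendsto_rpow_atTop (by norm_num)
  have t4 : Tendsto (fun ℓ : ℝ => ℓ ^ (1 / 4 : ℝ)) atTop atTop := tendsto_rpow_atTop (by norm_num)
  have tl : Tendsto (fun B : ℕ => Real.log (B : ℝ)) atTop atTop :=
    Real.tendsto_log_atTop.comp tendsto_natCast_atTop_atTop
  have hev : ∀ᶠ ℓ : ℝ in atTop, 1 ≤ ℓ ∧ A0 ≤ ℓ ∧ 2 ≤ ℓ ^ (1 / 100 : ℝ) ∧
      (w0 : ℝ) ≤ Real.exp (ℓ ^ (1 / 100 : ℝ) / 2) ∧ (k0 : ℝ) ≤ ℓ ^ (1 / 4 : ℝ) ∧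
      (2 : ℝ) ^ N ≤ ℓ ^ (1 / 2 : ℝ) ∧
      (ℓ ^ (1 / 2 : ℝ)) ^ C * Real.exp (-(ℓ ^ (1 / 4 : ℝ) / 4)) ≤ η ∧
      2 * ℓ ^ (-(107 / 3000) : ℝ) * ((2 + Real.log ℓ) * (2 + A * Real.log ℓ)) ≤ η ∧
      ℓ ^ (K * k0) * Real.exp (-ℓ) ≤ 1 ∧ ℓ ^ (A * k0) * Real.exp (-ℓ) ≤ 1 ∧
      Real.log ℓ / ℓ ^ (1 / 100 : ℝ) ≤ 1 / (8 * ((A : ℝ) + 1)) := by
    have e1 := (lim3 C).eventually (eventually_le_nhds hη)
    have e2 := (limA A).eventually (eventually_le_nhds hη)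
    have e3 := (Real.tendsto_pow_mul_exp_neg_atTop_nhds_zero (K * k0)).eventually
      (eventually_le_nhds one_pos)
    have e3' := (Real.tendsto_pow_mul_exp_neg_atTop_nhds_zero (A * k0)).eventually
      (eventually_le_nhds one_pos)
    have e4 := (Real.tendsto_exp_atTop.comp
      (t100.atTop_mul_const (show (0 : ℝ) < 1 / 2 by norm_num))).eventually_ge_atTop (w0 : ℝ)
    have e5 : ∀ᶠ ℓ : ℝ in atTop, Real.log ℓ / ℓ ^ (1 / 100 : ℝ) ≤ 1 / (8 * ((A : ℝ) + 1)) := by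
      have h2 : Tendsto (fun ℓ : ℝ => Real.log ℓ / ℓ ^ (1 / 100 : ℝ)) atTop (𝓝 0) :=
        (isLittleO_log_rpow_atTop (by norm_num)).tendsto_div_nhds_zero
      exact h2.eventually (eventually_le_nhds (by positivity))
    filter_upwards [eventually_ge_atTop (1 : ℝ), eventually_ge_atTop A0,
      t100.eventually_ge_atTop (2 : ℝ), e4, t4.eventually_ge_atTop (k0 : ℝ),
      t2.eventually_ge_atTop ((2 : ℝ) ^ N), e1, e2, e3, e3', e5] with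
      ℓ a1 a2 a3 a4 a5 a6 a7 a8 a9 a10 a11
    refine ⟨a1, a2, a3, ?_, a5, a6, a7, a8, a9, a10, a11⟩
    simp only [Function.comp_apply] at a4
    rwa [mul_one_div] at a4
  obtain ⟨B0, hB0⟩ := eventually_atTop.1 (tl.eventually hev)
  refine ⟨max B0 1, fun B hB => ?_⟩
  obtain ⟨a1, a2, a3, a4, a5, a6, a7, a8, a9, a10, a11⟩ := hB0 B ((le_max_left _ _).trans hB)
  have hB1 : 1 ≤ B := (le_max_right _ _).trans hB
  have hBpos : (0 : ℝ) < B := by exact_mod_cast hB1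
  obtain ⟨ℓ, hℓ⟩ : ∃ ℓ, ℓ = Real.log (B : ℝ) := ⟨_, rfl⟩
  rw [← hℓ] at a1 a2 a3 a4 a5 a6 a7 a8 a9 a10 a11 ⊢
  have hexp : Real.exp ℓ = B := by rw [hℓ, Real.exp_log hBpos]
  have hℓ0 : 0 < ℓ := by linarith
  have hll : 0 ≤ Real.log ℓ := Real.log_nonneg a1
  obtain ⟨a, ha⟩ : ∃ a, a = ℓ ^ (1 / 100 : ℝ) := ⟨_, rfl⟩
  obtain ⟨b, hb⟩ : ∃ b, b = ℓ ^ (1 / 2 : ℝ) := ⟨_, rfl⟩
  obtain ⟨d, hd⟩ : ∃ d, d = ℓ ^ (1 / 4 : ℝ) := ⟨_, rfl⟩
  rw [← ha] at a3 a4 a11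
  rw [← hb] at a6 a7
  rw [← hd] at a5 a7
  have hab : a ≤ b := by
    rw [ha, hb]
    exact Real.rpow_le_rpow_of_exponent_le a1 (by norm_num)
  have hd0 : 0 < d := by rw [hd]; exact Real.rpow_pos_of_pos hℓ0 _
  have hb2 : 2 ≤ b := a3.trans hab
  have hbb : b * b = ℓ := by
    rw [hb, ← Real.rpow_add hℓ0]
    norm_num
  have hdd : d * d = b := by
    rw [hb, hd, ← Real.rpow_add hℓ0]
    norm_num
  have hd1 : 1 ≤ d := by nlinarith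
  have hm2 : 2 ≤ b * d := by nlinarith
  obtain ⟨w1, w2, w3, w4⟩ := floor_exp a3
  obtain ⟨y1, y2, y3, y4⟩ := floor_exp hb2
  obtain ⟨m1, m2, m3, m4⟩ := floor_exp hm2
  have hb1 : 1 ≤ b := by linarith
  have haN : (a / 2) ^ N = ℓ ^ (K + 1) / 2 ^ N := by
    rw [div_pow, ha, ← Real.rpow_natCast, ← Real.rpow_mul hℓ0.le, ← Real.rpow_natCast ℓ (K + 1)]
    congr 2
    rw [hN]
    push_cast
    ring
  have hwN : ℓ ^ (K + 1) / 2 ^ N ≤ Real.log (⌊Real.exp a⌋₊ : ℝ) ^ N := by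
    rw [← haN]
    exact pow_le_pow_left₀ (by linarith) w1 N
  have hbl : b ≤ ℓ := by nlinarith
  have h2N : (0 : ℝ) < 2 ^ N := by positivity
  have hpl : ∀ n : ℕ, ℓ ^ n * Real.exp (-ℓ) ≤ 1 → ℓ ^ n ≤ B := by
    intro n hn
    rw [← hexp]
    have h1 := Real.exp_pos ℓ
    have h2 : ℓ ^ n = ℓ ^ n * Real.exp (-ℓ) * Real.exp ℓ := by
      rw [mul_assoc, ← Real.exp_add, neg_add_cancel, Real.exp_zero, mul_one]
    rw [h2]
    nlinarith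
  refine ⟨⌊Real.exp a⌋₊, ⌊Real.exp b⌋₊, ⌊Real.exp (b * d)⌋₊, ?_, ?_, ?_, ?_, ?_, ?_, ?_, ?_, ?_,
    ?_, ?_, a2, hpl _ a9, ?_, hpl _ a10, a1⟩
  · have : (w0 : ℝ) ≤ (⌊Real.exp a⌋₊ : ℝ) := a4.trans w3
    exact_mod_cast this
  · exact Nat.floor_le_floor (Real.exp_le_exp.2 hab)
  · have : (1 : ℝ) ≤ (⌊Real.exp (b * d)⌋₊ : ℝ) := by
      refine le_trans ?_ m3
      exact Real.one_le_exp (by linarith)
    exact_mod_cast this
  · have : ((⌊Real.exp b⌋₊ : ℕ) : ℝ) ^ k0 ≤ B := by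
      calc ((⌊Real.exp b⌋₊ : ℕ) : ℝ) ^ k0 ≤ Real.exp b ^ k0 :=
            pow_le_pow_left₀ (Nat.cast_nonneg _) y4 k0
        _ = Real.exp (k0 * b) := by rw [← Real.exp_nat_mul]
        _ ≤ Real.exp ℓ := by
          apply Real.exp_le_exp.2
          have : (k0 : ℝ) ≤ b := by nlinarith
          nlinarith
        _ = B := hexp
    exact_mod_cast this
  · have : ((⌊Real.exp (b * d)⌋₊ : ℕ) : ℝ) ^ k0 ≤ B := by
      calc ((⌊Real.exp (b * d)⌋₊ : ℕ) : ℝ) ^ k0 ≤ Real.exp (b * d) ^ k0 :=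
            pow_le_pow_left₀ (Nat.cast_nonneg _) m4 k0
        _ = Real.exp (k0 * (b * d)) := by rw [← Real.exp_nat_mul]
        _ ≤ Real.exp ℓ := by
          apply Real.exp_le_exp.2
          calc (k0 : ℝ) * (b * d) ≤ d * (b * d) := mul_le_mul_of_nonneg_right a5 (by positivity)
            _ = b * (d * d) := by ring
            _ = ℓ := by rw [hdd, hbb]
        _ = B := hexp
    exact_mod_cast this
  · refine y2.trans (le_trans ?_ hwN)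
    rw [le_div_iff₀ h2N]
    calc b * 2 ^ N ≤ b * b := mul_le_mul_of_nonneg_left a6 (by linarith)
      _ = ℓ := hbb
      _ = ℓ ^ 1 := (pow_one _).symm
      _ ≤ ℓ ^ (K + 1) := pow_le_pow_right₀ a1 (by omega)
  · refine le_trans ?_ hwN
    rw [le_div_iff₀ h2N, pow_succ]
    exact mul_le_mul_of_nonneg_left (a6.trans hbl) (by positivity)
  · refine le_trans ?_ a7
    apply mul_le_mul
    · exact Real.rpow_le_rpow (by linarith) y2 hC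
    · apply Real.exp_le_exp.2
      rw [neg_le_neg_iff]
      have hy0 : 0 < Real.log (⌊Real.exp b⌋₊ : ℝ) := by linarith
      rw [div_le_div_iff₀ (by norm_num) (by linarith)]
      nlinarith
    · exact (Real.exp_pos _).le
    · positivity
  · refine le_trans ?_ a8
    have hy0 : 0 < Real.log (⌊Real.exp b⌋₊ : ℝ) := by linarith
    have e1 : Real.log (⌊Real.exp a⌋₊ : ℝ) ^ (3 / 5 : ℝ) ≤ a ^ (3 / 5 : ℝ) :=
      Real.rpow_le_rpow (by linarith) w2 (by norm_num)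
    have e2 : Real.log (⌊Real.exp b⌋₊ : ℝ) ^ (-(1 / 12) : ℝ) ≤ (b / 2) ^ (-(1 / 12) : ℝ) :=
      Real.rpow_le_rpow_of_nonpos (by linarith) y1 (by norm_num)
    have e3 : (b / 2) ^ (-(1 / 12) : ℝ) ≤ 2 * b ^ (-(1 / 12) : ℝ) := by
      rw [Real.div_rpow (by linarith) (by norm_num), div_eq_mul_inv, mul_comm]
      apply mul_le_mul_of_nonneg_right _ (by positivity)
      rw [← Real.rpow_neg (by norm_num)]
      calc (2 : ℝ) ^ (-(-(1 / 12)) : ℝ) ≤ 2 ^ (1 : ℝ) :=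
            Real.rpow_le_rpow_of_exponent_le (by norm_num) (by norm_num)
        _ = 2 := Real.rpow_one _
    have e4 : a ^ (3 / 5 : ℝ) * b ^ (-(1 / 12) : ℝ) = ℓ ^ (-(107 / 3000) : ℝ) := by
      rw [ha, hb, ← Real.rpow_mul hℓ0.le, ← Real.rpow_mul hℓ0.le, ← Real.rpow_add hℓ0]
      norm_num
    have e5 : Real.log (Real.log (⌊Real.exp b⌋₊ : ℝ)) ≤ Real.log ℓ :=
      Real.log_le_log hy0 (y2.trans hbl)
    have e6 : 0 ≤ Real.log (Real.log (⌊Real.exp b⌋₊ : ℝ)) := Real.log_nonneg (by linarith)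
    have e7 : Real.log (⌊Real.exp a⌋₊ : ℝ) ^ (3 / 5 : ℝ) *
        Real.log (⌊Real.exp b⌋₊ : ℝ) ^ (-(1 / 12) : ℝ) ≤ 2 * ℓ ^ (-(107 / 3000) : ℝ) := by
      calc _ ≤ a ^ (3 / 5 : ℝ) * (2 * b ^ (-(1 / 12) : ℝ)) :=
            mul_le_mul e1 (e2.trans e3) (Real.rpow_nonneg hy0.le _)
              (Real.rpow_nonneg (by linarith) _)
        _ = 2 * (a ^ (3 / 5 : ℝ) * b ^ (-(1 / 12) : ℝ)) := by ring
        _ = _ := by rw [e4]
    have hAl : 0 ≤ 2 + (A : ℝ) * Real.log ℓ := by positivity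
    exact mul_le_mul e7 (mul_le_mul_of_nonneg_right (by linarith) hAl)
      (mul_nonneg (by linarith) hAl) (by positivity)
  · linarith
  · linarith
  · refine le_trans ?_ (show a / 8 ≤ _ by linarith)
    have ha0 : 0 < a := by linarith
    rw [div_le_div_iff₀ ha0 (by positivity)] at a11
    have hA0 : (0 : ℝ) ≤ A := Nat.cast_nonneg A
    nlinarith

end par

end Pool.Agent.N80.QH
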