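import Pool.Agent.N80.QH.SHB
import Pool.Agent.N80.QH.SHP

set_option autoImplicit false

/-! # Project QH (helper728), subtask SH: the assembly of the shift (helper80)

The templates are `Pool/Agent/N999/QL/B2.lean` (helper999), `Pool/Agent/N271/QG/B2.lean` (helper271) and
`Pool/Agent/N545/QG/CORE.lean` (helper545). -/

namespace Pool.Agent.N80.QH

open Finset MeasureTheory Pool.Agent.N728.QL Pool.Agent.N728.QG
open Pool.Agent.N999.QL (box_le Dv_dvd Dv_lt cop_of_dvd_PP sqrt_comb)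

noncomputable section

theorem Df_eq {q M j R α : ℕ} {ρ : ℝ} (hR : 1 ≤ R) (g : ℝ → ℝ) (a κ : ℕ → ℝ)
    (ha1 : ∀ i ∈ Dv ρ M j, a i = Real.log i ∧ κ i = 1)
    (ha2 : ∀ i, i ∉ Dv ρ M j → a i = Real.log i + R * Real.log ρ ∧ κ i = -1) (z : ℝ) :
    ∑ i ∈ (Dv ρ M j).filter (fun m => m ≡ α [MOD q]) ∪ (DvR ρ M j R).filter (fun m => m ≡ α [MOD q]),
      κ i * g (z - a i) = Df q ρ M j R α g z := by
  have hdis : Disjoint ((Dv ρ M j).filter (fun m => m ≡ α [MOD q]))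
      ((DvR ρ M j R).filter (fun m => m ≡ α [MOD q])) := by
    rw [disjoint_left]
    intro m hm hm'
    exact Dv_disj hR (mem_filter.1 hm).1 (mem_filter.1 hm').1
  rw [sum_union hdis]
  unfold Df
  rw [sub_eq_add_neg, ← sum_neg_distrib]
  congr 1
  · refine sum_congr rfl fun i hi => ?_
    obtain ⟨h1, h2⟩ := ha1 i (mem_filter.1 hi).1
    rw [h1, h2, one_mul]
  · refine sum_congr rfl fun i hi => ?_
    obtain ⟨h1, h2⟩ := ha2 i (fun h => Dv_disj hR h (mem_filter.1 hi).1)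
    rw [h1, h2]
    ring

open Classical in
theorem badr_le {W : ℕ → ℝ} (hW : ∀ n, 0 ≤ W n) {T : ℝ} (hT : 0 ≤ T) (Y w y M0 : ℕ) (ρ : ℝ) :
    ∑ u ∈ Icc 1 ⌊T⌋₊, ∑ v ∈ Icc 1 Y, (if Badr T w y M0 ρ u v then W (u * v) else 0) ≤
      ∑ u ∈ Icc 1 ⌊T⌋₊, ∑ v ∈ Icc 1 Y, (if Bad ⌊T⌋₊ w y M0 ρ u v then W (u * v) else 0) := by
  refine sum_le_sum fun u _ => sum_le_sum fun v _ => ?_
  by_cases h : Badr T w y M0 ρ u v
  · have h' : Bad ⌊T⌋₊ w y M0 ρ u v := by
      unfold Badr at h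
      unfold Bad
      rcases h with h | h | h
      · exact Or.inl h
      · exact Or.inr (Or.inl h)
      · exact Or.inr (Or.inr ((Nat.floor_le hT).trans_lt h))
    rw [if_pos h, if_pos h']
  · rw [if_neg h]
    split_ifs
    · exact hW _
    · exact le_rfl

theorem t_SH (hORBS : S_ORBS) (hEK : S_EK) (hBAD : Pool.Agent.N728.QG.S_BAD) (_hRNG : S_RNG)
    (hDSS : S_DSS) (hSHB : S_SHB) (_hMER : S_MER) : S_SH := by
  classical
  intro C0 ε k₀ D K K2 q A S0 hC0 hε hD hK hq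
  obtain ⟨CB, hCB, kB, BB, hBd⟩ := hBAD C0 k₀ (4 * D) hC0 (by omega)
  obtain ⟨CD, hCD, kD, BD, hDs⟩ := hDSS C0 k₀ (4 * D) (S0 + K) hC0 (by omega)
  obtain ⟨CQ, hCQ, wQ, hQ⟩ := hSHB q (100 * (K2 + 1)) (S0 + K) hq
  obtain ⟨CE, hCE, hE⟩ := hEK
  obtain ⟨k, hk⟩ : ∃ k, k = 1 + k₀ + kB + kD + 12 * D := ⟨_, rfl⟩
  have hKr : (0 : ℝ) < K := by exact_mod_cast hK
  have hKr1 : (1 : ℝ) ≤ K := by exact_mod_cast hK
  obtain ⟨δ, hδ⟩ : ∃ δ : ℝ, δ = min 1 (ε / (24 * (CB * K))) := ⟨_, rfl⟩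
  have hδ0 : 0 < δ := by rw [hδ]; exact lt_min one_pos (by positivity)
  have hδ1 : δ ≤ 1 := by rw [hδ]; exact min_le_left _ _
  have hδ2 : δ ≤ ε / (24 * (CB * K)) := by rw [hδ]; exact min_le_right _ _
  obtain ⟨x0, hx0⟩ : ∃ x0 : ℝ, x0 = (C0 * K + 1) * (2 * (CE * δ ^ (-(1 / 2) : ℝ))) := ⟨_, rfl⟩
  have hx00 : 0 < x0 := by rw [hx0]; positivity
  obtain ⟨e, he⟩ : ∃ e : ℝ, e = ε / 4 := ⟨_, rfl⟩
  have he0 : 0 < e := by rw [he]; positivity
  have hq1 : (1 : ℝ) ≤ q := by exact_mod_cast hq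
  obtain ⟨Wc, hWc⟩ : ∃ W : ℝ, W = (q : ℝ) ^ 2 * CD * K * (CQ + 1) := ⟨_, rfl⟩
  have hWc0 : 0 < Wc := by rw [hWc]; positivity
  obtain ⟨η, hη⟩ : ∃ η : ℝ, η = min δ (min (1 / x0) (e ^ 2 / (Wc * x0))) := ⟨_, rfl⟩
  have hη0 : 0 < η := by
    rw [hη]
    exact lt_min hδ0 (lt_min (by positivity) (by positivity))
  have hη1 : η ≤ δ := by rw [hη]; exact min_le_left _ _
  have hη2 : η ≤ 1 / x0 := by rw [hη]; exact (min_le_right _ _).trans (min_le_left _ _)
  have hη3 : η ≤ e ^ 2 / (Wc * x0) := by rw [hη]; exact (min_le_right _ _).trans (min_le_right _ _)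
  have hρ1 : (1 : ℝ) < 1 + δ := by linarith
  have hρ2 : (1 : ℝ) + δ ≤ 2 := by linarith
  obtain ⟨B1, hB1⟩ := params k K2 (q + wQ + 2 + ⌈1 / δ⌉₊) A CB η (max 1 (1 / δ)) hCB.le hη0
  refine ⟨1 + δ, hρ1, hρ2, BB + BD + B1 + 60 + (4 * K) ^ (12 * D), ?_⟩
  intro B hB W E hEW hU0 hU1 R T u0 v0 g L hRA hT hTB hL1 hL g2 gL gs
  have hWn : ∀ n, 0 ≤ W n := fun n => (abs_nonneg _).trans (hEW n)
  obtain ⟨w, y, M0, hw0, hwy, hM0, hyk, hM0k, hlyw, hlBw, hexp, hEKb, hlw1, hly1, hA0, hlBk, hAll,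
    hlBA, hlB1⟩ := hB1 B (by omega)
  have hB60 : 60 ≤ B := by omega
  have hB0 : 1 ≤ B := by omega
  have hBr : (60 : ℝ) ≤ B := by exact_mod_cast hB60
  have hBpos : (0 : ℝ) < B := lt_of_lt_of_le (by norm_num) hBr
  have hlogBδ : 1 / Real.log B ≤ δ := by
    rw [div_le_iff₀ (by linarith)]
    have h1 : 1 / δ ≤ Real.log B := (le_max_right _ _).trans hA0
    rw [div_le_iff₀ hδ0] at h1
    linarith
  have hw2 : 2 ≤ w := by omega
  have hy2 : 2 ≤ y := by omega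
  -- powers
  have pw : ∀ {n : ℕ} (k' : ℕ), 1 ≤ n → k' ≤ k → n ^ k ≤ B → n ^ k' ≤ B := by
    intro n k' hn hk' h
    exact (Nat.pow_le_pow_right hn hk').trans h
  have hM0r : (1 : ℝ) ≤ M0 := by exact_mod_cast hM0
  have hT1 : 1 ≤ T := by
    by_contra hcon
    have h0 : T = 0 := by omega
    rw [h0, zero_pow (by omega)] at hT
    omega
  have hTr : (1 : ℝ) ≤ T := by exact_mod_cast hT1
  -- the trivial case
  rcases Nat.eq_zero_or_pos R with hR0 | hR0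
  · subst hR0
    have e1 : ⌊(T : ℝ) / (1 + δ) ^ 0⌋₊ = T := by rw [pow_zero, div_one, Nat.floor_natCast]
    have e2 : ⌊(K : ℝ) * B * (1 + δ) ^ 0⌋₊ = K * B := by
      rw [pow_zero, mul_one, ← Nat.cast_mul, Nat.floor_natCast]
    rw [e1, e2]
    simp only [Nat.cast_zero, zero_mul, sub_zero, sub_self, abs_zero]
    positivity
  have hρ0 : (0 : ℝ) < (1 + δ) ^ R := by positivity
  have hρR1 : (1 : ℝ) ≤ (1 + δ) ^ R := one_le_pow₀ hρ1.le
  obtain ⟨Λ, hΛ⟩ : ∃ Λ : ℝ, Λ = Real.log B ^ A := ⟨_, rfl⟩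
  have hΛ1 : 1 ≤ Λ := by rw [hΛ]; exact one_le_pow₀ hlB1
  have hRΛ : (1 + δ) ^ R ≤ Λ := by rw [hΛ]; exact hRA
  obtain ⟨G, hG⟩ : ∃ G : ℝ, G = 4 * K * M0 * Λ := ⟨_, rfl⟩
  have hG0 : 0 < G := by rw [hG]; positivity
  have hGB : G ^ (4 * D) ≤ B := by
    have h1 : (G ^ (4 * D)) ^ 3 ≤ (B : ℝ) ^ 3 := by
      have e1 : (G ^ (4 * D)) ^ 3 = (4 * K) ^ (12 * D) * (M0 : ℝ) ^ (12 * D) * Λ ^ (12 * D) := by
        rw [← pow_mul, show 4 * D * 3 = 12 * D by ring, hG, mul_pow, mul_pow]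
      rw [e1]
      have f1 : ((4 : ℝ) * K) ^ (12 * D) ≤ B := by
        have : (4 * K) ^ (12 * D) ≤ B := by omega
        exact_mod_cast this
      have f2 : (M0 : ℝ) ^ (12 * D) ≤ B := by exact_mod_cast pw (12 * D) hM0 (by omega) hM0k
      have f3 : Λ ^ (12 * D) ≤ B := by
        calc Λ ^ (12 * D) ≤ Λ ^ k := pow_le_pow_right₀ hΛ1 (by omega)
          _ = Real.log B ^ (A * k) := by rw [hΛ, pow_mul]
          _ ≤ B := hlBA
      calc (4 * (K : ℝ)) ^ (12 * D) * (M0 : ℝ) ^ (12 * D) * Λ ^ (12 * D) ≤ B * B * B := by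
            apply mul_le_mul _ f3 (by positivity) (by positivity)
            exact mul_le_mul f1 f2 (by positivity) (by positivity)
        _ = _ := by ring
    exact (pow_le_pow_iff_left₀ (by positivity) (by positivity) (by norm_num)).1 h1
  have hRl : (R : ℝ) * Real.log (1 + δ) ≤ A * Real.log (Real.log B) := by
    have h1 := Real.log_le_log hρ0 hRA
    rwa [Real.log_pow, Real.log_pow] at h1
  have hRl0 : 0 ≤ (R : ℝ) * Real.log (1 + δ) :=
    mul_nonneg (Nat.cast_nonneg R) (Real.log_nonneg hρ1.le)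
  -- facts on g
  have hlogK : Real.log ((K : ℝ) * (B : ℝ)) ≤ Real.log B - S0 + ((S0 + K : ℕ) : ℝ) := by
    rw [Real.log_mul (by positivity) (by positivity)]
    have h2 : Real.log (K : ℝ) ≤ (K : ℝ) - 1 := Real.log_le_sub_one_of_pos (by positivity)
    push_cast
    linarith
  have gsK : ∀ s, Real.log ((K : ℝ) * (B : ℝ)) < s → g s = 0 := by
    intro s hs'
    apply gs
    intro h
    linarith [h.2]
  have gsS : ∀ s, ¬ (Real.log B - S0 ≤ s ∧ s ≤ Real.log B - S0 + ((S0 + K : ℕ) : ℝ)) → g s = 0 := by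
    intro s hs'
    apply gs
    intro h
    exact hs' ⟨h.1, h.2.trans hlogK⟩
  have hKB0 : (0 : ℝ) < (K : ℝ) * B := by positivity
  -- the orbit bound
  have hO := hORBS (T : ℝ) ((K : ℝ) * B) (1 + δ) w y M0 R
    (phr q u0 v0 T ((K : ℝ) * B) 0 g)
    (phr q u0 v0 ((T : ℝ) / (1 + δ) ^ R) ((K : ℝ) * B * (1 + δ) ^ R) (R * Real.log (1 + δ)) g)
    E W hρ1 (by linarith) hKB0 (phr_le g2) (phr_le g2) (fun u v _ hv => phr_zero u v hv)
    (fun u v _ hv => phr_zero u v hv) hEW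
  -- the bad pairs
  obtain ⟨β, hβ⟩ : ∃ β : ℝ, β = 1 / w + ((1 + δ) - 1) +
      Real.log y ^ CB * Real.exp (-(Real.log M0 / (2 * Real.log y))) := ⟨_, rfl⟩
  have hw1δ : 1 / (w : ℝ) ≤ δ := by
    have h1 : 1 / δ ≤ w := (Nat.le_ceil _).trans (by exact_mod_cast (by omega : ⌈1 / δ⌉₊ ≤ w))
    have hw0' : (0 : ℝ) < w := by exact_mod_cast (by omega : 0 < w)
    rw [div_le_iff₀ hδ0] at h1
    rw [div_le_iff₀ hw0']
    linarith
  have hβ3 : β ≤ 3 * δ := by rw [hβ]; linarith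
  have hβ0 : 0 ≤ β := by
    rw [hβ]
    have h1 : 0 ≤ Real.log y ^ CB := Real.rpow_nonneg (by linarith) _
    have h2 : (0 : ℝ) ≤ 1 / w := by positivity
    have h3 : 0 ≤ Real.log y ^ CB * Real.exp (-(Real.log M0 / (2 * Real.log y))) :=
      mul_nonneg h1 (Real.exp_pos _).le
    linarith
  have hU0' : U0b C0 k₀ B (2 * (4 * D)) W := by
    have e8 : 2 * (4 * D) = 8 * D := by ring
    rw [e8]; exact hU0
  have hU1' : U1b C0 k₀ B (2 * (4 * D)) W := by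
    have e8 : 2 * (4 * D) = 8 * D := by ring
    rw [e8]; exact hU1
  have hKB : K ≤ B := by
    have h1 : K ≤ (4 * K) ^ (12 * D) := by
      calc K ≤ 4 * K := by omega
        _ ≤ (4 * K) ^ (12 * D) := Nat.le_self_pow (by omega) _
    omega
  have hbadN : ∀ T' Y' : ℕ, B ≤ T' ^ (4 * D) → T' ≤ B ^ (4 * D) → B ≤ Y' ^ (4 * D) →
      Y' ≤ B ^ (4 * D) → (T' : ℝ) * Y' ≤ T * (K * B) →
      ∑ u ∈ Icc 1 T', ∑ v ∈ Icc 1 Y', (if Bad T' w y M0 (1 + δ) u v then W (u * v) else 0) ≤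
        3 * (CB * K) * δ * ((B : ℝ) * T) := by
    intro T' Y' h1 h2 h3 h4 h5
    have h := hBd B (by omega) W hWn hU0' w y M0 T' Y' (1 + δ) hw2 hwy
      (pw kB (by omega) (by omega) hyk) hM0 (pw kB hM0 (by omega) hM0k) h1 h2 h3 h4
      (by linarith) hρ2
    rw [← hβ] at h
    refine h.trans ?_
    calc CB * ((T' : ℝ) * Y') * β ≤ CB * (T * (K * B)) * (3 * δ) :=
          mul_le_mul (mul_le_mul_of_nonneg_left h5 hCB.le) hβ3 hβ0 (by positivity)
      _ = _ := by ring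
  have hbad1 : ∑ u ∈ Icc 1 ⌊(T : ℝ)⌋₊, ∑ v ∈ Icc 1 ⌊(K : ℝ) * B⌋₊,
      (if Badr T w y M0 (1 + δ) u v then W (u * v) else 0) ≤ 3 * (CB * K) * δ * ((B : ℝ) * T) := by
    refine (badr_le hWn (Nat.cast_nonneg T) _ w y M0 (1 + δ)).trans ?_
    have e2 : ⌊(K : ℝ) * B⌋₊ = K * B := by rw [← Nat.cast_mul, Nat.floor_natCast]
    rw [Nat.floor_natCast, e2]
    refine hbadN T (K * B) (hT.trans (Nat.pow_le_pow_right hT1 (by omega)))
      (hTB.trans (Nat.pow_le_pow_right hB0 (by omega))) ?_ ?_ (le_of_eq (by push_cast; ring))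
    · calc B ≤ K * B := Nat.le_mul_of_pos_left B (by omega)
        _ ≤ (K * B) ^ (4 * D) := Nat.le_self_pow (by omega) _
    · calc K * B ≤ B * B := Nat.mul_le_mul_right _ hKB
        _ = B ^ 2 := by ring
        _ ≤ B ^ (4 * D) := Nat.pow_le_pow_right hB0 (by omega)
  have hGΛ : 2 * Λ ≤ G := by
    rw [hG]
    have h1 : (1 : ℝ) ≤ K * M0 := one_le_mul_of_one_le_of_one_le hKr1 hM0r
    have h2 : Λ ≤ K * M0 * Λ := le_mul_of_one_le_left (by linarith) h1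
    linarith
  have hG1 : 1 ≤ G := by linarith
  have hGB1 : G ≤ B := (le_self_pow₀ hG1 (by omega)).trans hGB
  have hTG : G ≤ T := by
    have h1 : (G ^ 4) ^ D ≤ (T : ℝ) ^ D := by
      rw [← pow_mul]
      exact hGB.trans (by exact_mod_cast hT)
    have h2 : G ^ 4 ≤ (T : ℝ) :=
      (pow_le_pow_iff_left₀ (by positivity) (Nat.cast_nonneg T) (by omega)).1 h1
    exact (le_self_pow₀ hG1 (by norm_num)).trans h2
  have hbad2 : ∑ u ∈ Icc 1 ⌊(T : ℝ) / (1 + δ) ^ R⌋₊, ∑ v ∈ Icc 1 ⌊(K : ℝ) * B * (1 + δ) ^ R⌋₊,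
      (if Badr ((T : ℝ) / (1 + δ) ^ R) w y M0 (1 + δ) u v then W (u * v) else 0) ≤
      3 * (CB * K) * δ * ((B : ℝ) * T) := by
    refine (badr_le hWn (by positivity) _ w y M0 (1 + δ)).trans ?_
    obtain ⟨T', hT'⟩ : ∃ T' : ℕ, T' = ⌊(T : ℝ) / (1 + δ) ^ R⌋₊ := ⟨_, rfl⟩
    obtain ⟨Y', hY'⟩ : ∃ Y' : ℕ, Y' = ⌊(K : ℝ) * B * (1 + δ) ^ R⌋₊ := ⟨_, rfl⟩
    have hT'r : (T' : ℝ) ≤ (T : ℝ) / (1 + δ) ^ R := by rw [hT']; exact Nat.floor_le (by positivity)
    have hY'r : (Y' : ℝ) ≤ (K : ℝ) * B * (1 + δ) ^ R := by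
      rw [hY']; exact Nat.floor_le (by positivity)
    rw [← hT', ← hY']
    refine hbadN T' Y' ?_ ?_ ?_ ?_ ?_
    · refine big_of hD hB0 hT hG0 hGB ?_
      have h1 : 2 ≤ (T : ℝ) / (1 + δ) ^ R := by
        rw [le_div_iff₀ hρ0]
        linarith
      have h2 := floor_half h1
      rw [← hT'] at h2
      have h3 : (T : ℝ) / (1 + δ) ^ R ≤ 2 * T' := by linarith
      rw [div_le_iff₀ hρ0] at h3
      calc (T : ℝ) ≤ 2 * T' * (1 + δ) ^ R := h3
        _ ≤ 2 * T' * Λ := mul_le_mul_of_nonneg_left hRΛ (by positivity)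
        _ = (2 * Λ) * T' := by ring
        _ ≤ G * T' := mul_le_mul_of_nonneg_right hGΛ (Nat.cast_nonneg _)
    · have h1 : (T' : ℝ) ≤ T := hT'r.trans (div_le_self (Nat.cast_nonneg T) hρR1)
      have h2 : T' ≤ T := by exact_mod_cast h1
      exact h2.trans (hTB.trans (Nat.pow_le_pow_right hB0 (by omega)))
    · have h1 : K * B ≤ Y' := by
        rw [hY']
        apply Nat.le_floor
        push_cast
        exact le_mul_of_one_le_right (by positivity) hρR1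
      calc B ≤ K * B := Nat.le_mul_of_pos_left B (by omega)
        _ ≤ Y' := h1
        _ ≤ Y' ^ (4 * D) := Nat.le_self_pow (by omega) _
    · have h1 : (Y' : ℝ) ≤ (B : ℝ) ^ 2 := by
        calc (Y' : ℝ) ≤ K * B * (1 + δ) ^ R := hY'r
          _ ≤ K * B * Λ := mul_le_mul_of_nonneg_left hRΛ (by positivity)
          _ = B * (K * 1 * Λ) := by ring
          _ ≤ B * (4 * K * M0 * Λ) := by
            apply mul_le_mul_of_nonneg_left _ hBpos.le
            apply mul_le_mul_of_nonneg_right _ (by linarith)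
            exact mul_le_mul (by linarith) hM0r (by norm_num) (by positivity)
          _ ≤ B * B := by rw [← hG]; exact mul_le_mul_of_nonneg_left hGB1 hBpos.le
          _ = _ := by ring
      have h2 : Y' ≤ B ^ 2 := by exact_mod_cast h1
      exact h2.trans (Nat.pow_le_pow_right hB0 (by omega))
    · calc (T' : ℝ) * Y' ≤ ((T : ℝ) / (1 + δ) ^ R) * (K * B * (1 + δ) ^ R) :=
            mul_le_mul hT'r hY'r (Nat.cast_nonneg _) (by positivity)
        _ = _ := by field_simp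
  -- the facts on `M`
  have hMf : ∀ M ∈ (PP w y).divisors.filter (fun M => M ≤ M0), M ∣ PP w y ∧ 1 ≤ M ∧ M ≤ M0 := by
    intro M hM
    rw [mem_filter, Nat.mem_divisors] at hM
    exact ⟨hM.1.1, Nat.pos_of_dvd_of_pos hM.1.1 (PP_pos w y), hM.2⟩
  obtain ⟨S, hS⟩ : ∃ S : ℝ, S = (B : ℝ) * T := ⟨_, rfl⟩
  have hS0 : 0 ≤ S := by rw [hS]; positivity
  obtain ⟨l, hl⟩ : ∃ l : ℝ, l = Real.log w ^ (3 / 5 : ℝ) * Real.log y ^ (-(1 / 12) : ℝ) := ⟨_, rfl⟩
  have hl0 : 0 ≤ l := by rw [hl]; positivity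
  obtain ⟨EK, hEKd⟩ : ∃ EK : ℝ, EK = CE * δ ^ (-(1 / 2) : ℝ) * l := ⟨_, rfl⟩
  have hEK0 : 0 ≤ EK := by rw [hEKd]; positivity
  have hEKx : 2 * EK ≤ x0 * l := by
    rw [hEKd, hx0]
    have h1 : 0 ≤ C0 * K * (2 * (CE * δ ^ (-(1 / 2) : ℝ))) * l := by positivity
    have h2 : (C0 * K + 1) * (2 * (CE * δ ^ (-(1 / 2) : ℝ))) * l =
        C0 * K * (2 * (CE * δ ^ (-(1 / 2) : ℝ))) * l + 2 * (CE * δ ^ (-(1 / 2) : ℝ) * l) := by ring
    rw [h2]
    exact le_add_of_nonneg_left h1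
  have hEKs : VW w y ^ 2 * ∑ M ∈ (PP w y).divisors, ((Wn (1 + δ) M).card : ℝ) / (Nat.totient M : ℝ) ≤
      EK := by
    refine (hE w y (1 + δ) hw2 hwy hρ1 hρ2).trans (le_of_eq ?_)
    rw [hEKd, hl, add_sub_cancel_left]
    ring
  have hEKs' : VW w y ^ 2 * ∑ M ∈ (PP w y).divisors, ∑ j ∈ WnR (1 + δ) M R,
      (1 / (Nat.totient M : ℝ)) ≤ 2 * EK := EK_R hEKs
  -- AA
  have hAA : ∑ M ∈ (PP w y).divisors.filter (fun M => M ≤ M0), ∑ j ∈ WnR (1 + δ) M R,
      AAr W w y (1 + δ) T ((K : ℝ) * B) M j ≤ (C0 * K * (2 * EK)) * S := by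
    have h1 := MJ_sumR (w := w) (y := y) (M0 := M0) (R := R) (ρ := 1 + δ)
      (R' := C0 * (K * ((T : ℝ) * B)))
      (f := fun M j => AAr W w y (1 + δ) T ((K : ℝ) * B) M j)
      (h := fun M _ => 1 / (Nat.totient M : ℝ)) (by positivity) (fun M _ => by positivity)
      (by
        intro M hM j hj
        obtain ⟨hMP, hM1, hMM⟩ := hMf M hM
        obtain ⟨r1, r2, r3, r4, r5⟩ := rngR hD hK hB0 hT hTB hG hGB hρ1 hρ2 hM1 hMM hΛ1 hRΛ hj
        exact AAr_one hC0 hD hU1 (by omega) hwy (pw k₀ (by omega) (by omega) hyk)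
          ((Nat.pow_le_pow_left hMM _).trans (pw k₀ hM0 (by omega) hM0k)) hMP hM1 hB0 r1 r2 r3 r4 r5)
    refine h1.trans ?_
    calc C0 * (K * ((T : ℝ) * B)) * (VW w y ^ 2 * ∑ M ∈ (PP w y).divisors,
          ∑ j ∈ WnR (1 + δ) M R, (1 / (Nat.totient M : ℝ)))
        ≤ C0 * (K * ((T : ℝ) * B)) * (2 * EK) := mul_le_mul_of_nonneg_left hEKs' (by positivity)
      _ = _ := by rw [hS]; ring
  have hax : C0 * K * (2 * EK) ≤ x0 * l := by
    rw [hEKd, hx0]
    have h1 : 0 ≤ 2 * (CE * δ ^ (-(1 / 2) : ℝ)) * l := by positivity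
    have h2 : (C0 * K + 1) * (2 * (CE * δ ^ (-(1 / 2) : ℝ))) * l =
        C0 * K * (2 * (CE * δ ^ (-(1 / 2) : ℝ) * l)) + 2 * (CE * δ ^ (-(1 / 2) : ℝ)) * l := by ring
    rw [h2]
    exact le_add_of_nonneg_right h1
  -- DD
  have hLk : L ^ kD ≤ B := by
    calc L ^ kD ≤ L ^ k := pow_le_pow_right₀ hL1 (by omega)
      _ ≤ (Real.log B ^ K2) ^ k := pow_le_pow_left₀ (by linarith) hL k
      _ = Real.log B ^ (K2 * k) := by rw [pow_mul]
      _ ≤ B := hlBk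
  obtain ⟨r, hr⟩ : ∃ r : ℝ, r = (R : ℝ) * Real.log (1 + δ) := ⟨_, rfl⟩
  have hr0 : 0 ≤ r := by rw [hr]; exact hRl0
  have hrA : r ≤ A * Real.log (Real.log B) := by rw [hr]; exact hRl
  have hll0 : 0 ≤ Real.log (Real.log y) := Real.log_nonneg hly1
  have hQs : ∀ α : ℕ, VW w y ^ 2 * ∑ M ∈ (PP w y).divisors, ∑ j ∈ WnR (1 + δ) M R,
      (1 / (Nat.totient M : ℝ)) * ∫ s : ℝ, (Df q (1 + δ) M j R α g s) ^ 2 ≤
      CQ * (1 + r) * (1 + Real.log (Real.log y)) := by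
    intro α
    have h := hQ w y R (by omega) hwy hlyw L (Real.log B - S0) (1 + δ) g α hL1 (hL.trans hlBw)
      hρ1 hρ2 hR0 (hRl.trans hAll) g2 gL gsS
    rw [hr]
    exact h
  have hDD : ∑ M ∈ (PP w y).divisors.filter (fun M => M ≤ M0), ∑ j ∈ WnR (1 + δ) M R,
      DDr (phr q u0 v0 T ((K : ℝ) * B) 0 g)
        (phr q u0 v0 ((T : ℝ) / (1 + δ) ^ R) ((K : ℝ) * B * (1 + δ) ^ R) (R * Real.log (1 + δ)) g)
        W w y (1 + δ) T ((K : ℝ) * B) M j R ≤
      (CD * K * q * (q * (CQ * (1 + ((1 + r) * (1 + Real.log (Real.log y)) - 1))) +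
        q * (2 * EK * (1 / Real.log B)))) * S := by
    have h1 := MJ_sumR (w := w) (y := y) (M0 := M0) (R := R) (ρ := 1 + δ)
      (R' := CD * K * q * ((T : ℝ) * B))
      (f := fun M j => DDr (phr q u0 v0 T ((K : ℝ) * B) 0 g)
        (phr q u0 v0 ((T : ℝ) / (1 + δ) ^ R) ((K : ℝ) * B * (1 + δ) ^ R) (R * Real.log (1 + δ)) g)
        W w y (1 + δ) T ((K : ℝ) * B) M j R)
      (h := fun M j => ∑ α ∈ range q, (1 / (Nat.totient M : ℝ)) *
        ((∫ s : ℝ, (Df q (1 + δ) M j R α g s) ^ 2) + 1 / Real.log B)) (by positivity)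
      (fun M j => sum_nonneg fun α _ => mul_nonneg (by positivity)
        (add_nonneg (integral_nonneg fun s => sq_nonneg _) (by positivity)))
      (by
        intro M hM j hj
        obtain ⟨hMP, hM1, hMM⟩ := hMf M hM
        obtain ⟨r1, r2, r3, r4, r5⟩ := rngR hD hK hB0 hT hTB hG hGB hρ1 hρ2 hM1 hMM hΛ1 hRΛ hj
        refine DDr_one hWn hCD hq (by omega) hMP hM1 hρ1 hK hB0 gsK ?_ r5
        obtain ⟨X, hX⟩ : ∃ X, X = ⌊(T : ℝ) / (1 + δ) ^ (j + 1)⌋₊ := ⟨_, rfl⟩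
        obtain ⟨Y, hY⟩ : ∃ Y, Y = ⌊(K : ℝ) * B * (1 + δ) ^ (j + 1) / M⌋₊ := ⟨_, rfl⟩
        rw [← hX] at r1 r2 ⊢
        rw [← hY] at r3 r4 ⊢
        intro α
        have hDe := Df_eq (q := q) (M := M) (j := j) (R := R) (α := α) (ρ := 1 + δ) hR0 g
          (fun i => if i ∈ Dv (1 + δ) M j then Real.log i else
            Real.log i + R * Real.log (1 + δ))
          (fun i => if i ∈ Dv (1 + δ) M j then 1 else -1)
          (fun i hi => ⟨if_pos hi, if_pos hi⟩) (fun i hi => ⟨if_neg hi, if_neg hi⟩)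
        have h := hDs B (by omega) W hWn hU1' w y M X Y
          ((Dv (1 + δ) M j).filter (fun m => m ≡ α [MOD q]) ∪
            (DvR (1 + δ) M j R).filter (fun m => m ≡ α [MOD q]))
          (fun i => if i ∈ Dv (1 + δ) M j then Real.log i else
            Real.log i + R * Real.log (1 + δ))
          (fun i => if i ∈ Dv (1 + δ) M j then 1 else -1)
          L (Real.log B - S0) g (by omega) hwy
          (pw kD (by omega) (by omega) hyk)
          ((Nat.pow_le_pow_left hMM _).trans (pw kD hM0 (by omega) hM0k)) hMP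
          r1 r2 r3 r4 ?_ ?_ hL1 hLk g2 gL gsS
        · simp only [hDe] at h
          exact h
        · have hc1 : ((Dv (1 + δ) M j).filter (fun m => m ≡ α [MOD q]) ∪
              (DvR (1 + δ) M j R).filter (fun m => m ≡ α [MOD q])).card ≤ M0 := by
            have hsub : (Dv (1 + δ) M j).filter (fun m => m ≡ α [MOD q]) ∪
                (DvR (1 + δ) M j R).filter (fun m => m ≡ α [MOD q]) ⊆ M.divisors := by
              intro m hm
              rw [Nat.mem_divisors]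
              refine ⟨?_, by omega⟩
              rcases mem_union.1 hm with hm | hm
              · exact Dv_dvd (mem_filter.1 hm).1
              · exact DvR_dvd (mem_filter.1 hm).1
            calc _ ≤ M.divisors.card := card_le_card hsub
              _ ≤ M := Nat.card_divisors_le_self M
              _ ≤ M0 := hMM
          exact (Nat.pow_le_pow_left hc1 _).trans (pw kD hM0 (by omega) hM0k)
        · intro i _
          split_ifs <;> norm_num)
    refine h1.trans ?_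
    have h2 : VW w y ^ 2 * ∑ M ∈ (PP w y).divisors, ∑ j ∈ WnR (1 + δ) M R,
        ∑ α ∈ range q, (1 / (Nat.totient M : ℝ)) *
        ((∫ s : ℝ, (Df q (1 + δ) M j R α g s) ^ 2) + 1 / Real.log B) ≤
        q * (CQ * (1 + r) * (1 + Real.log (Real.log y))) + q * (2 * EK * (1 / Real.log B)) := by
      have e1 : VW w y ^ 2 * ∑ M ∈ (PP w y).divisors, ∑ j ∈ WnR (1 + δ) M R,
          ∑ α ∈ range q, (1 / (Nat.totient M : ℝ)) *
          ((∫ s : ℝ, (Df q (1 + δ) M j R α g s) ^ 2) + 1 / Real.log B) =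
          ∑ α ∈ range q, ((VW w y ^ 2 * ∑ M ∈ (PP w y).divisors, ∑ j ∈ WnR (1 + δ) M R,
            (1 / (Nat.totient M : ℝ)) * ∫ s : ℝ, (Df q (1 + δ) M j R α g s) ^ 2) +
            (VW w y ^ 2 * ∑ M ∈ (PP w y).divisors, ∑ j ∈ WnR (1 + δ) M R,
              (1 / (Nat.totient M : ℝ))) * (1 / Real.log B)) := by
        simp only [mul_sum, sum_mul, sum_add_distrib, mul_add]
        congr 1
        · rw [sum_comm]
          refine sum_congr rfl fun M _ => ?_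
          rw [sum_comm]
        · rw [sum_comm]
          refine sum_congr rfl fun M _ => ?_
          rw [sum_comm]
          refine sum_congr rfl fun j _ => ?_
          refine sum_congr rfl fun α _ => ?_
          ring
      rw [e1]
      calc _ ≤ ∑ α ∈ range q, (CQ * (1 + r) * (1 + Real.log (Real.log y)) +
            2 * EK * (1 / Real.log B)) := by
            refine sum_le_sum fun α _ => ?_
            exact add_le_add (hQs α) (mul_le_mul_of_nonneg_right hEKs' (by positivity))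
        _ = _ := by
            rw [sum_const, card_range, nsmul_eq_mul]
            ring
    calc CD * K * q * ((T : ℝ) * B) * (VW w y ^ 2 * ∑ M ∈ (PP w y).divisors,
        ∑ j ∈ WnR (1 + δ) M R, ∑ α ∈ range q, (1 / (Nat.totient M : ℝ)) *
        ((∫ s : ℝ, (Df q (1 + δ) M j R α g s) ^ 2) + 1 / Real.log B)) ≤
          CD * K * q * ((T : ℝ) * B) *
          (q * (CQ * (1 + r) * (1 + Real.log (Real.log y))) + q * (2 * EK * (1 / Real.log B))) :=
          mul_le_mul_of_nonneg_left h2 (by positivity)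
      _ = _ := by rw [hS]; ring
  -- the product
  have hlη : l * (2 + ((1 + r) * (1 + Real.log (Real.log y)) - 1)) ≤ η := by
    refine le_trans ?_ hEKb
    rw [← hl]
    apply mul_le_mul_of_nonneg_left _ hl0
    have h1 : r * Real.log (Real.log y) ≤ A * Real.log (Real.log B) * Real.log (Real.log y) :=
      mul_le_mul_of_nonneg_right hrA hll0
    have h2 : 0 ≤ A * Real.log (Real.log B) := hr0.trans hrA
    have h3 : (2 + Real.log (Real.log y)) * (2 + A * Real.log (Real.log B)) =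
        4 + 2 * (A * Real.log (Real.log B)) + 2 * Real.log (Real.log y) +
          A * Real.log (Real.log B) * Real.log (Real.log y) := by ring
    have h4 : 2 + ((1 + r) * (1 + Real.log (Real.log y)) - 1) =
        2 + r + Real.log (Real.log y) + r * Real.log (Real.log y) := by ring
    rw [h3, h4]
    linarith
  have had := Pool.Agent.N271.QG.nums (CD := CD) (CQ := CQ) (Kr := K) (e := e) hCD hCQ hKr hq1
    hx00 hWc hη2 hη3 (by linarith : 0 ≤ 2 * EK) hEKx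
    (by
      have h1 := mul_nonneg hr0 hll0
      have h2 : (1 + r) * (1 + Real.log (Real.log y)) - 1 =
        r + Real.log (Real.log y) + r * Real.log (Real.log y) := by ring
      rw [h2]
      linarith : 0 ≤ (1 + r) * (1 + Real.log (Real.log y)) - 1) hlη hlB1 (by positivity) hax rfl
  have hcomb := sqrt_comb hAA hDD hS0 (by positivity) had he0.le
  -- the left hand side
  have l1 := phr_sum q u0 v0 (Nat.cast_nonneg T : (0 : ℝ) ≤ (T : ℝ)) hKB0.le 0 g E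
  have l2 := phr_sum q u0 v0 (T := (T : ℝ) / (1 + δ) ^ R) (Y := (K : ℝ) * B * (1 + δ) ^ R)
    (by positivity) (by positivity) (R * Real.log (1 + δ)) g E
  have e2 : ⌊(K : ℝ) * B⌋₊ = K * B := by rw [← Nat.cast_mul, Nat.floor_natCast]
  have l3 : ∑ u ∈ (Icc 1 T).filter (fun u => u ≡ u0 [MOD q]),
      ∑ v ∈ (Icc 1 (K * B)).filter (fun v => v ≡ v0 [MOD q]), g (Real.log v) * E (u * v) =
      2 * ∑ u ∈ Icc 1 ⌊(T : ℝ)⌋₊, ∑ v ∈ Icc 1 ⌊(K : ℝ) * B⌋₊,
        phr q u0 v0 T ((K : ℝ) * B) 0 g u v * E (u * v) := by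
    rw [← l1, Nat.floor_natCast, e2]
    simp only [sub_zero]
  rw [l3, l2, ← mul_sub, abs_mul, abs_of_pos (by norm_num : (0 : ℝ) < 2)]
  calc 2 * |∑ u ∈ Icc 1 ⌊(T : ℝ)⌋₊, ∑ v ∈ Icc 1 ⌊(K : ℝ) * B⌋₊,
        phr q u0 v0 T ((K : ℝ) * B) 0 g u v * E (u * v) -
      ∑ u ∈ Icc 1 ⌊(T : ℝ) / (1 + δ) ^ R⌋₊, ∑ v ∈ Icc 1 ⌊(K : ℝ) * B * (1 + δ) ^ R⌋₊,
        phr q u0 v0 ((T : ℝ) / (1 + δ) ^ R) ((K : ℝ) * B * (1 + δ) ^ R)
          (R * Real.log (1 + δ)) g u v * E (u * v)|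
      ≤ 2 * (3 * (CB * K) * δ * ((B : ℝ) * T) + 3 * (CB * K) * δ * ((B : ℝ) * T) + e * S) := by
        apply mul_le_mul_of_nonneg_left _ (by norm_num)
        exact hO.trans (add_le_add (add_le_add hbad1 hbad2) hcomb)
    _ ≤ ε * ((B : ℝ) * T) := by
        rw [hS, he]
        have h1 : 2 * (3 * (CB * K) * δ * ((B : ℝ) * T) + 3 * (CB * K) * δ * ((B : ℝ) * T) +
            ε / 4 * ((B : ℝ) * T)) = (12 * (CB * K) * δ + ε / 2) * ((B : ℝ) * T) := by
          ring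
        rw [h1]
        apply mul_le_mul_of_nonneg_right _ (by positivity)
        rw [le_div_iff₀ (by positivity)] at hδ2
        linarith

end

end Pool.Agent.N80.QH
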