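import Pool.Agent.N728.QG.Def2
import Pool.Agent.N271.QG.B2

set_option autoImplicit false

/-! # Project QH (helper728), subtask SH: the ranges and the orbit weights (helper80)

The templates are `Pool/Agent/N999/QL/B2.lean` (helper999), `Pool/Agent/N271/QG/B2.lean` (helper271) and
`Pool/Agent/N545/QG/CORE.lean` (helper545). -/

namespace Pool.Agent.N80.QH

open Finset MeasureTheory Pool.Agent.N728.QL Pool.Agent.N728.QG
open Pool.Agent.N999.QL (box_le Dv_dvd Dv_lt cop_of_dvd_PP)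

noncomputable section

/-! ### Ranges -/

theorem jw_le {ρ : ℝ} (hρ : 1 < ρ) {m : ℕ} (hm : 1 ≤ m) : ρ ^ jw ρ m ≤ (m : ℝ) := by
  have hlogρ : 0 < Real.log ρ := Real.log_pos hρ
  have hm0 : (0 : ℝ) < m := by exact_mod_cast hm
  have hlm : 0 ≤ Real.log (m : ℝ) := Real.log_natCast_nonneg m
  have h1 : (jw ρ m : ℝ) ≤ Real.log m / Real.log ρ := by
    unfold jw
    exact Nat.floor_le (by positivity)
  rw [le_div_iff₀ hlogρ] at h1
  have h2 : Real.log (ρ ^ jw ρ m) ≤ Real.log m := by rw [Real.log_pow]; exact h1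
  exact (Real.log_le_log_iff (by positivity) hm0).1 h2

/-- the powers of `ρ` for the windows -/
theorem pow_window {ρ Λ : ℝ} {M M0 R j : ℕ} (hρ : 1 < ρ) (hρ2 : ρ ≤ 2) (hM : 1 ≤ M) (hMM : M ≤ M0)
    (hΛ : 1 ≤ Λ) (hR : ρ ^ R ≤ Λ) (hj : j ∈ WnR ρ M R) : ρ ^ (j + 1) ≤ 2 * M0 * Λ := by
  have h0 : ∀ j0 ∈ Wn ρ M, ρ ^ j0 ≤ (M0 : ℝ) := by
    intro j0 hj0
    unfold Wn at hj0
    obtain ⟨m, hm, rfl⟩ := mem_image.1 hj0
    have hmM := (Nat.mem_divisors.1 hm).1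
    have hm1 : 1 ≤ m := Nat.pos_of_dvd_of_pos hmM hM
    refine (jw_le hρ hm1).trans ?_
    exact_mod_cast (Nat.le_of_dvd hM hmM).trans hMM
  have hM0 : (0 : ℝ) ≤ M0 := Nat.cast_nonneg M0
  unfold WnR at hj
  rcases mem_union.1 hj with hj | hj
  · have h1 := h0 j hj
    calc ρ ^ (j + 1) = ρ * ρ ^ j := by rw [pow_succ]; ring
      _ ≤ 2 * M0 := mul_le_mul hρ2 h1 (by positivity) (by norm_num)
      _ ≤ 2 * M0 * Λ := le_mul_of_one_le_right (by positivity) hΛ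
  · obtain ⟨j0, hj0, rfl⟩ := mem_image.1 hj
    have h1 := h0 j0 hj0
    calc ρ ^ (j0 + R + 1) = ρ * ρ ^ j0 * ρ ^ R := by rw [pow_succ, pow_add]; ring
      _ ≤ 2 * M0 * Λ := by
        apply mul_le_mul _ hR (by positivity) (by positivity)
        exact mul_le_mul hρ2 h1 (by positivity) (by norm_num)

theorem floor_half {x : ℝ} (hx : 2 ≤ x) : x / 2 ≤ (⌊x⌋₊ : ℝ) := by
  have := Nat.lt_floor_add_one x
  linarith

/-- a number `X` with `T ≤ G X` -/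
theorem big_of {B T D X : ℕ} {G : ℝ} (hD : 1 ≤ D) (hB : 1 ≤ B) (hT : B ≤ T ^ D) (hG0 : 0 < G)
    (hG : G ^ (4 * D) ≤ B) (hX : (T : ℝ) ≤ G * X) : B ≤ X ^ (4 * D) := by
  have hBr : (1 : ℝ) ≤ B := by exact_mod_cast hB
  have h1 : (T : ℝ) ^ (4 * D) ≤ G ^ (4 * D) * (X : ℝ) ^ (4 * D) := by
    rw [← mul_pow]
    exact pow_le_pow_left₀ (Nat.cast_nonneg T) hX _
  have h2 : (B : ℝ) ^ 4 ≤ (T : ℝ) ^ (4 * D) := by
    rw [mul_comm 4 D, pow_mul]
    exact pow_le_pow_left₀ (by linarith) (by exact_mod_cast hT) 4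
  have h3 : (B : ℝ) ^ 4 ≤ B * (X : ℝ) ^ (4 * D) :=
    h2.trans (h1.trans (mul_le_mul_of_nonneg_right hG (by positivity)))
  have h4 : (B : ℝ) ≤ (X : ℝ) ^ (4 * D) := by
    by_contra hcon
    rw [not_le] at hcon
    have h5 : (B : ℝ) * (X : ℝ) ^ (4 * D) < B * B := mul_lt_mul_of_pos_left hcon (by linarith)
    have h6 : (B : ℝ) * B ≤ (B : ℝ) ^ 4 := by
      calc (B : ℝ) * B = (B : ℝ) ^ 2 := by ring
        _ ≤ (B : ℝ) ^ 4 := pow_le_pow_right₀ hBr (by norm_num)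
    linarith
  exact_mod_cast h4

/-- RNG for the shifted windows -/
theorem rngR {B T K D M0 M R j : ℕ} {ρ Λ G : ℝ} (hD : 1 ≤ D) (hK : 1 ≤ K) (hB : 1 ≤ B)
    (hT : B ≤ T ^ D) (hTB : T ≤ B ^ D) (hG : G = 4 * K * M0 * Λ) (hGB : G ^ (4 * D) ≤ B)
    (hρ : 1 < ρ) (hρ2 : ρ ≤ 2) (hM : 1 ≤ M) (hMM : M ≤ M0) (hΛ : 1 ≤ Λ) (hR : ρ ^ R ≤ Λ)
    (hj : j ∈ WnR ρ M R) :
    B ≤ ⌊(T : ℝ) / ρ ^ (j + 1)⌋₊ ^ (4 * D) ∧ ⌊(T : ℝ) / ρ ^ (j + 1)⌋₊ ≤ B ^ (4 * D) ∧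
    B ≤ ⌊(K : ℝ) * B * ρ ^ (j + 1) / M⌋₊ ^ (4 * D) ∧
    ⌊(K : ℝ) * B * ρ ^ (j + 1) / M⌋₊ ≤ B ^ (4 * D) ∧
    (⌊(T : ℝ) / ρ ^ (j + 1)⌋₊ : ℝ) * ⌊(K : ℝ) * B * ρ ^ (j + 1) / M⌋₊ ≤ T * (K * B) / M := by
  have hw := pow_window hρ hρ2 hM hMM hΛ hR hj
  have hp1 : 1 ≤ ρ ^ (j + 1) := one_le_pow₀ hρ.le
  have hp0 : 0 < ρ ^ (j + 1) := by linarith
  have hKr : (1 : ℝ) ≤ K := by exact_mod_cast hK
  have hBr : (1 : ℝ) ≤ B := by exact_mod_cast hB
  have hMr : (1 : ℝ) ≤ M := by exact_mod_cast hM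
  have hM0r : (1 : ℝ) ≤ M0 := by exact_mod_cast hM.trans hMM
  have hMMr : (M : ℝ) ≤ M0 := by exact_mod_cast hMM
  have hKM : (1 : ℝ) ≤ K * M0 := one_le_mul_of_one_le_of_one_le hKr hM0r
  have hG4 : 4 ≤ G := by
    rw [hG]
    have : (1 : ℝ) ≤ K * M0 * Λ := one_le_mul_of_one_le_of_one_le hKM hΛ
    linarith
  have hG1 : 1 ≤ G := by linarith
  have hGB1 : G ≤ B := (le_self_pow₀ hG1 (by omega)).trans hGB
  have hML : 2 * M0 * Λ ≤ G / 2 := by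
    rw [hG]
    have : (M0 : ℝ) * Λ ≤ K * (M0 * Λ) := le_mul_of_one_le_left (by positivity) hKr
    linarith
  have hTG : G ≤ T := by
    have h1 : (G ^ 4) ^ D ≤ (T : ℝ) ^ D := by
      rw [← pow_mul]
      exact hGB.trans (by exact_mod_cast hT)
    have h2 : G ^ 4 ≤ (T : ℝ) := (pow_le_pow_iff_left₀ (by positivity) (Nat.cast_nonneg T) (by omega)).1 h1
    exact (le_self_pow₀ hG1 (by norm_num)).trans h2
  have hpG : ρ ^ (j + 1) ≤ G / 2 := hw.trans hML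
  refine ⟨?_, ?_, ?_, ?_, ?_⟩
  · refine big_of hD hB hT (by linarith) hGB ?_
    have h1 : 2 ≤ (T : ℝ) / ρ ^ (j + 1) := by
      rw [le_div_iff₀ hp0]
      linarith
    have h2 := floor_half h1
    have h3 : (T : ℝ) / ρ ^ (j + 1) ≤ 2 * ⌊(T : ℝ) / ρ ^ (j + 1)⌋₊ := by linarith
    rw [div_le_iff₀ hp0] at h3
    calc (T : ℝ) ≤ 2 * ⌊(T : ℝ) / ρ ^ (j + 1)⌋₊ * ρ ^ (j + 1) := h3
      _ ≤ 2 * ⌊(T : ℝ) / ρ ^ (j + 1)⌋₊ * (G / 2) := mul_le_mul_of_nonneg_left hpG (by positivity)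
      _ = _ := by ring
  · have h1 : (⌊(T : ℝ) / ρ ^ (j + 1)⌋₊ : ℝ) ≤ T :=
      (Nat.floor_le (by positivity)).trans (div_le_self (Nat.cast_nonneg T) hp1)
    have h2 : ⌊(T : ℝ) / ρ ^ (j + 1)⌋₊ ≤ T := by exact_mod_cast h1
    exact h2.trans (hTB.trans (Nat.pow_le_pow_right hB (by omega)))
  · have h0 : (B : ℝ) / M0 ≤ (K : ℝ) * B * ρ ^ (j + 1) / M := by
      apply div_le_div₀ (by positivity) _ (by linarith) hMMr
      calc (B : ℝ) = 1 * B * 1 := by ring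
        _ ≤ K * B * ρ ^ (j + 1) := by
          apply mul_le_mul (mul_le_mul_of_nonneg_right hKr (by linarith)) hp1 (by norm_num)
            (by positivity)
    have hMG : (M0 : ℝ) ≤ G / 4 := by
      rw [hG]
      have : (1 : ℝ) ≤ K * Λ := one_le_mul_of_one_le_of_one_le hKr hΛ
      have h5 : (M0 : ℝ) ≤ M0 * (K * Λ) := le_mul_of_one_le_right (by linarith) this
      linarith
    have h1 : 2 ≤ (B : ℝ) / M0 := by
      rw [le_div_iff₀ (by linarith)]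
      linarith
    have h2 := floor_half (h1.trans h0)
    set Y := ⌊(K : ℝ) * B * ρ ^ (j + 1) / M⌋₊ with hY
    have h3 : (B : ℝ) ≤ G * Y := by
      have h4 : (B : ℝ) / M0 ≤ 2 * Y := by linarith
      rw [div_le_iff₀ (by linarith)] at h4
      calc (B : ℝ) ≤ 2 * Y * M0 := h4
        _ ≤ 2 * Y * (G / 4) := mul_le_mul_of_nonneg_left hMG (by positivity)
        _ ≤ G * Y := by nlinarith [Nat.cast_nonneg (α := ℝ) Y]
    have h5 : B ≤ Y ^ 4 := by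
      have := big_of (B := B) (T := B) (D := 1) (X := Y) (G := G) le_rfl hB (by rw [pow_one])
        (by linarith) ((pow_le_pow_right₀ hG1 (by omega)).trans hGB) h3
      simpa using this
    have hY0 : 1 ≤ Y := by
      rcases Nat.eq_zero_or_pos Y with h | h
      · rw [h] at h5
        simp at h5
        omega
      · exact h
    exact h5.trans (Nat.pow_le_pow_right hY0 (by omega))
  · have h1 : (⌊(K : ℝ) * B * ρ ^ (j + 1) / M⌋₊ : ℝ) ≤ (B : ℝ) ^ 2 := by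
      refine (Nat.floor_le (by positivity)).trans ?_
      calc (K : ℝ) * B * ρ ^ (j + 1) / M ≤ K * B * ρ ^ (j + 1) := div_le_self (by positivity) hMr
        _ ≤ K * B * (2 * M0 * Λ) := mul_le_mul_of_nonneg_left hw (by positivity)
        _ ≤ B * G := by rw [hG]; have : 0 ≤ (B : ℝ) * (K * M0 * Λ) := by positivity
                        nlinarith
        _ ≤ B * B := mul_le_mul_of_nonneg_left hGB1 (by linarith)
        _ = _ := by ring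
    have h2 : ⌊(K : ℝ) * B * ρ ^ (j + 1) / M⌋₊ ≤ B ^ 2 := by exact_mod_cast h1
    exact h2.trans (Nat.pow_le_pow_right hB (by omega))
  · calc (⌊(T : ℝ) / ρ ^ (j + 1)⌋₊ : ℝ) * ⌊(K : ℝ) * B * ρ ^ (j + 1) / M⌋₊
        ≤ ((T : ℝ) / ρ ^ (j + 1)) * ((K : ℝ) * B * ρ ^ (j + 1) / M) :=
          mul_le_mul (Nat.floor_le (by positivity)) (Nat.floor_le (by positivity)) (by positivity)
            (by positivity)
      _ = _ := by
        field_simp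

/-! ### The orbit weights -/

/-- the orbit weight -/
def phr (q u0 v0 : ℕ) (T Y c : ℝ) (g : ℝ → ℝ) (u v : ℕ) : ℝ :=
  open Classical in
  if (u : ℝ) ≤ T ∧ (v : ℝ) ≤ Y ∧ u ≡ u0 [MOD q] ∧ v ≡ v0 [MOD q] then g (Real.log v - c) / 2 else 0

theorem phr_le {q u0 v0 : ℕ} {T Y c : ℝ} {g : ℝ → ℝ} (g2 : ∀ s, |g s| ≤ 2) (u v : ℕ) :
    |phr q u0 v0 T Y c g u v| ≤ 1 := by
  classical
  unfold phr
  split_ifs
  · have := g2 (Real.log v - c)
    rw [abs_div, abs_of_pos (by norm_num : (0 : ℝ) < 2)]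
    linarith
  · rw [abs_zero]; norm_num

theorem phr_zero {q u0 v0 : ℕ} {T Y c : ℝ} {g : ℝ → ℝ} (u v : ℕ) (h : Y < (v : ℝ)) :
    phr q u0 v0 T Y c g u v = 0 := by
  classical
  unfold phr
  rw [if_neg]
  rintro ⟨-, h2, -⟩
  linarith

theorem phr_sum (q u0 v0 : ℕ) {T Y : ℝ} (hT : 0 ≤ T) (hY : 0 ≤ Y) (c : ℝ) (g : ℝ → ℝ)
    (E : ℕ → ℝ) :
    ∑ u ∈ (Icc 1 ⌊T⌋₊).filter (fun u => u ≡ u0 [MOD q]),
      ∑ v ∈ (Icc 1 ⌊Y⌋₊).filter (fun v => v ≡ v0 [MOD q]), g (Real.log v - c) * E (u * v) =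
    2 * ∑ u ∈ Icc 1 ⌊T⌋₊, ∑ v ∈ Icc 1 ⌊Y⌋₊, phr q u0 v0 T Y c g u v * E (u * v) := by
  classical
  rw [sum_filter, mul_sum]
  refine sum_congr rfl fun u hu => ?_
  have hu' : (u : ℝ) ≤ T := (Nat.cast_le.2 (mem_Icc.1 hu).2).trans (Nat.floor_le hT)
  by_cases h : u ≡ u0 [MOD q]
  · rw [if_pos h, sum_filter, mul_sum]
    refine sum_congr rfl fun v hv => ?_
    have hv' : (v : ℝ) ≤ Y := (Nat.cast_le.2 (mem_Icc.1 hv).2).trans (Nat.floor_le hY)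
    unfold phr
    by_cases h2 : v ≡ v0 [MOD q]
    · rw [if_pos h2, if_pos ⟨hu', hv', h, h2⟩]
      ring
    · rw [if_neg h2, if_neg (fun h3 => h2 h3.2.2.2)]
      ring
  · rw [if_neg h, mul_sum]
    symm
    apply sum_eq_zero
    intro v _
    unfold phr
    rw [if_neg (fun h3 => h h3.2.2.1)]
    ring

theorem phr_eq {q u0 v0 M m x t : ℕ} {T Y c : ℝ} {g : ℝ → ℝ} (hm : m ∣ M) (hM : 1 ≤ M) (ht : 1 ≤ t)
    (hmx : (m : ℝ) * x ≤ T) (hY : 0 < Y) (hg : ∀ s, Real.log Y - c < s → g s = 0) :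
    phr q u0 v0 T Y c g (m * x) (M / m * t) =
      if (m * x ≡ u0 [MOD q] ∧ M / m * t ≡ v0 [MOD q]) then
        g (Real.log M + Real.log t - (Real.log m + c)) / 2 else 0 := by
  classical
  have hm1 : 1 ≤ m := Nat.pos_of_dvd_of_pos hm hM
  have hmr : (0 : ℝ) < m := by exact_mod_cast hm1
  have hMr : (0 : ℝ) < M := by exact_mod_cast hM
  have htr : (0 : ℝ) < t := by exact_mod_cast ht
  have hlog : Real.log ((M / m * t : ℕ) : ℝ) = Real.log M + Real.log t - Real.log m := by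
    rw [Nat.cast_mul, Nat.cast_div hm hmr.ne', Real.log_mul (by positivity) htr.ne',
      Real.log_div hMr.ne' hmr.ne']
    ring
  have e1 : Real.log M + Real.log t - (Real.log m + c) = Real.log ((M / m * t : ℕ) : ℝ) - c := by
    rw [hlog]; ring
  unfold phr
  by_cases hP : m * x ≡ u0 [MOD q] ∧ M / m * t ≡ v0 [MOD q]
  · rw [if_pos hP]
    by_cases h4 : ((M / m * t : ℕ) : ℝ) ≤ Y
    · rw [if_pos ⟨by push_cast; exact hmx, h4, hP⟩, e1]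
    · rw [if_neg (fun h => h4 h.2.1)]
      rw [hg, zero_div]
      rw [e1]
      have := Real.log_lt_log hY (not_le.1 h4)
      linarith
  · rw [if_neg hP, if_neg]
    intro h
    exact hP h.2.2

theorem DvR_dvd {ρ : ℝ} {M j R m : ℕ} (hm : m ∈ DvR ρ M j R) : m ∣ M := by
  unfold DvR at hm
  split_ifs at hm with h
  · exact Dv_dvd hm
  · exact absurd hm (notMem_empty m)

theorem DvR_lt {ρ : ℝ} {M j R m : ℕ} (hM : 1 ≤ M) (hρ : 1 < ρ) (hm : m ∈ DvR ρ M j R) :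
    (m : ℝ) * ρ ^ R < ρ ^ (j + 1) := by
  unfold DvR at hm
  split_ifs at hm with h
  · have h1 := Dv_lt hM hρ hm
    have h2 : ρ ^ (j + 1) = ρ ^ (j - R + 1) * ρ ^ R := by
      rw [← pow_add]
      congr 1
      omega
    rw [h2]
    exact mul_lt_mul_of_pos_right h1 (by positivity)
  · exact absurd hm (notMem_empty m)

theorem Dv_disj {ρ : ℝ} {M j R m : ℕ} (hR : 1 ≤ R) (hm : m ∈ Dv ρ M j) : m ∉ DvR ρ M j R := by
  intro h
  unfold DvR at h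
  split_ifs at h with h1
  · unfold Dv at hm h
    have e1 := (mem_filter.1 hm).2
    have e2 := (mem_filter.1 h).2
    omega
  · exact absurd h (notMem_empty m)

end

end Pool.Agent.N80.QH
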