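import Pool.Agent.N80.QH.SHA
import Pool.Agent.N545.QG.CORE

set_option autoImplicit false

/-! # Project QH (helper728), subtask SH: the sums over the windows (helper80)

The templates are `Pool/Agent/N999/QL/B2.lean` (helper999), `Pool/Agent/N271/QG/B2.lean` (helper271) and
`Pool/Agent/N545/QG/CORE.lean` (helper545). -/

namespace Pool.Agent.N80.QH

open Finset MeasureTheory Pool.Agent.N728.QL Pool.Agent.N728.QG
open Pool.Agent.N999.QL (box_le Dv_dvd Dv_lt cop_of_dvd_PP)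

noncomputable section

/-- the difference for one class -/
def Df (q : ℕ) (ρ : ℝ) (M j R α : ℕ) (g : ℝ → ℝ) (z : ℝ) : ℝ :=
  ∑ m ∈ (Dv ρ M j).filter (fun m => m ≡ α [MOD q]), g (z - Real.log m) -
    ∑ m ∈ (DvR ρ M j R).filter (fun m => m ≡ α [MOD q]), g (z - (Real.log m + R * Real.log ρ))

/-- the sum over one class of the windows -/
theorem class_diff {q u0 v0 w y M j R x t α : ℕ} {ρ T Y : ℝ} {g : ℝ → ℝ} (hq : 1 ≤ q) (hqw : q ≤ w)
    (hM : M ∣ PP w y) (hM1 : 1 ≤ M) (hρ : 1 < ρ) (hT : 0 ≤ T) (hY : 0 < Y)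
    (hg : ∀ s, Real.log Y < s → g s = 0)
    (hx : x ∈ Icc 1 ⌊T / ρ ^ (j + 1)⌋₊) (ht : 1 ≤ t) :
    (∑ m ∈ (Dv ρ M j).filter (fun m => m ≡ α [MOD q]), phr q u0 v0 T Y 0 g (m * x) (M / m * t) -
      ∑ m ∈ (DvR ρ M j R).filter (fun m => m ≡ α [MOD q]),
        phr q u0 v0 (T / ρ ^ R) (Y * ρ ^ R) (R * Real.log ρ) g (m * x) (M / m * t)) ^ 2 ≤
      (1 / 4) * (Df q ρ M j R α g (Real.log M + Real.log t)) ^ 2 := by
  classical
  set D1 := (Dv ρ M j).filter (fun m => m ≡ α [MOD q]) with hD1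
  set D2 := (DvR ρ M j R).filter (fun m => m ≡ α [MOD q]) with hD2
  have hρj : 0 < ρ ^ (j + 1) := by positivity
  have hρR : 0 < ρ ^ R := by positivity
  have hxr : (x : ℝ) * ρ ^ (j + 1) ≤ T := by
    rw [mem_Icc] at hx
    have h1 : (x : ℝ) ≤ T / ρ ^ (j + 1) :=
      le_trans (by exact_mod_cast hx.2) (Nat.floor_le (by positivity))
    rwa [le_div_iff₀ hρj] at h1
  have hx0 : (0 : ℝ) ≤ x := Nat.cast_nonneg x
  have hp1 : ∀ m ∈ D1, phr q u0 v0 T Y 0 g (m * x) (M / m * t) =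
      if (m * x ≡ u0 [MOD q] ∧ M / m * t ≡ v0 [MOD q]) then
        g (Real.log M + Real.log t - Real.log m) / 2 else 0 := by
    intro m hm
    have hmD := (mem_filter.1 hm).1
    have h1 := phr_eq (q := q) (u0 := u0) (v0 := v0) (x := x) (T := T) (Y := Y) (c := 0) (g := g)
      (Dv_dvd hmD) hM1 ht ?_ hY (fun s hs => hg s (by linarith))
    · rw [h1, add_zero]
    · have h3 := (Dv_lt hM1 hρ hmD).le
      calc (m : ℝ) * x ≤ ρ ^ (j + 1) * x := mul_le_mul_of_nonneg_right h3 hx0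
        _ = x * ρ ^ (j + 1) := by ring
        _ ≤ T := hxr
  have hp2 : ∀ m ∈ D2, phr q u0 v0 (T / ρ ^ R) (Y * ρ ^ R) (R * Real.log ρ) g (m * x) (M / m * t) =
      if (m * x ≡ u0 [MOD q] ∧ M / m * t ≡ v0 [MOD q]) then
        g (Real.log M + Real.log t - (Real.log m + R * Real.log ρ)) / 2 else 0 := by
    intro m hm
    have hmD := (mem_filter.1 hm).1
    refine phr_eq (DvR_dvd hmD) hM1 ht ?_ (by positivity) (fun s hs => hg s ?_)
    · rw [le_div_iff₀ hρR]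
      have h3 := (DvR_lt hM1 hρ hmD).le
      calc (m : ℝ) * x * ρ ^ R = m * ρ ^ R * x := by ring
        _ ≤ ρ ^ (j + 1) * x := mul_le_mul_of_nonneg_right h3 hx0
        _ = x * ρ ^ (j + 1) := by ring
        _ ≤ T := hxr
    · rw [Real.log_mul hY.ne' hρR.ne', Real.log_pow] at hs
      linarith
  rw [sum_congr rfl hp1, sum_congr rfl hp2]
  have hprop : ∀ m ∈ D1 ∪ D2, m ∣ M ∧ m ≡ α [MOD q] := by
    intro m hm
    rcases mem_union.1 hm with hm | hm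
    · exact ⟨Dv_dvd (mem_filter.1 hm).1, (mem_filter.1 hm).2⟩
    · exact ⟨DvR_dvd (mem_filter.1 hm).1, (mem_filter.1 hm).2⟩
  have hinv : ∀ m ∈ D1 ∪ D2, ∀ m' ∈ D1 ∪ D2, (m * x ≡ u0 [MOD q] ∧ M / m * t ≡ v0 [MOD q]) →
      (m' * x ≡ u0 [MOD q] ∧ M / m' * t ≡ v0 [MOD q]) := by
    intro m hm m' hm' hP
    obtain ⟨hmM, hma⟩ := hprop m hm
    obtain ⟨hmM', hma'⟩ := hprop m' hm'
    have hmm : m ≡ m' [MOD q] := hma.trans hma'.symm
    have hdd : M / m ≡ M / m' [MOD q] := by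
      have h1 : m * (M / m) ≡ m * (M / m') [MOD q] := by
        have e1 : m * (M / m) = M := Nat.mul_div_cancel' hmM
        have e2 : m' * (M / m') = M := Nat.mul_div_cancel' hmM'
        calc m * (M / m) = m' * (M / m') := by rw [e1, e2]
          _ ≡ m * (M / m') [MOD q] := (hmm.symm.mul_right _)
      exact Nat.ModEq.cancel_left_of_coprime (cop_of_dvd_PP hq hqw (hmM.trans hM)) h1
    exact ⟨(hmm.symm.mul_right x).trans hP.1, (hdd.symm.mul_right t).trans hP.2⟩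
  by_cases hex : ∃ m ∈ D1 ∪ D2, (m * x ≡ u0 [MOD q] ∧ M / m * t ≡ v0 [MOD q])
  · obtain ⟨m0, hm0, hP0⟩ := hex
    have e1 : ∑ m ∈ D1, (if (m * x ≡ u0 [MOD q] ∧ M / m * t ≡ v0 [MOD q]) then
        g (Real.log M + Real.log t - Real.log m) / 2 else 0) =
        (∑ m ∈ D1, g (Real.log M + Real.log t - Real.log m)) / 2 := by
      rw [sum_div]
      refine sum_congr rfl fun m hm => ?_
      rw [if_pos (hinv m0 hm0 m (mem_union_left _ hm) hP0)]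
    have e2 : ∑ m ∈ D2, (if (m * x ≡ u0 [MOD q] ∧ M / m * t ≡ v0 [MOD q]) then
        g (Real.log M + Real.log t - (Real.log m + R * Real.log ρ)) / 2 else 0) =
        (∑ m ∈ D2, g (Real.log M + Real.log t - (Real.log m + R * Real.log ρ))) / 2 := by
      rw [sum_div]
      refine sum_congr rfl fun m hm => ?_
      rw [if_pos (hinv m0 hm0 m (mem_union_right _ hm) hP0)]
    rw [e1, e2]
    apply le_of_eq
    unfold Df
    ring
  · have e1 : ∑ m ∈ D1, (if (m * x ≡ u0 [MOD q] ∧ M / m * t ≡ v0 [MOD q]) then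
        g (Real.log M + Real.log t - Real.log m) / 2 else 0) = 0 := by
      apply sum_eq_zero
      intro m hm
      rw [if_neg (fun h => hex ⟨m, mem_union_left _ hm, h⟩)]
    have e2 : ∑ m ∈ D2, (if (m * x ≡ u0 [MOD q] ∧ M / m * t ≡ v0 [MOD q]) then
        g (Real.log M + Real.log t - (Real.log m + R * Real.log ρ)) / 2 else 0) = 0 := by
      apply sum_eq_zero
      intro m hm
      rw [if_neg (fun h => hex ⟨m, mem_union_right _ hm, h⟩)]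
    rw [e1, e2, sub_zero, zero_pow (by norm_num)]
    positivity

theorem fib_sum {q : ℕ} (hq : 1 ≤ q) (S : Finset ℕ) (f : ℕ → ℝ) :
    ∑ m ∈ S, f m = ∑ α ∈ range q, ∑ m ∈ S.filter (fun m => m ≡ α [MOD q]), f m := by
  classical
  rw [← sum_fiberwise_of_maps_to (s := S) (t := range q) (g := fun m => m % q)
    (fun m _ => mem_range.2 (Nat.mod_lt _ hq))]
  refine sum_congr rfl fun α hα => ?_
  apply sum_congr _ (fun _ _ => rfl)
  ext m
  simp only [mem_filter, and_congr_right_iff]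
  intro _
  unfold Nat.ModEq
  rw [Nat.mod_eq_of_lt (mem_range.1 hα)]

/-- the sum over the windows -/
theorem window_diff {q u0 v0 w y M j R x t : ℕ} {ρ T Y : ℝ} {g : ℝ → ℝ} (hq : 1 ≤ q) (hqw : q ≤ w)
    (hM : M ∣ PP w y) (hM1 : 1 ≤ M) (hρ : 1 < ρ) (hT : 0 ≤ T) (hY : 0 < Y)
    (hg : ∀ s, Real.log Y < s → g s = 0)
    (hx : x ∈ Icc 1 ⌊T / ρ ^ (j + 1)⌋₊) (ht : 1 ≤ t) :
    (∑ m ∈ Dv ρ M j, phr q u0 v0 T Y 0 g (m * x) (M / m * t) -
      ∑ m ∈ DvR ρ M j R,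
        phr q u0 v0 (T / ρ ^ R) (Y * ρ ^ R) (R * Real.log ρ) g (m * x) (M / m * t)) ^ 2 ≤
      (q / 4) * ∑ α ∈ range q, (Df q ρ M j R α g (Real.log M + Real.log t)) ^ 2 := by
  classical
  rw [fib_sum hq (Dv ρ M j), fib_sum hq (DvR ρ M j R), ← sum_sub_distrib]
  have hcs := sq_sum_le_card_mul_sum_sq (s := range q)
    (f := fun α => ∑ m ∈ (Dv ρ M j).filter (fun m => m ≡ α [MOD q]),
        phr q u0 v0 T Y 0 g (m * x) (M / m * t) -
      ∑ m ∈ (DvR ρ M j R).filter (fun m => m ≡ α [MOD q]),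
        phr q u0 v0 (T / ρ ^ R) (Y * ρ ^ R) (R * Real.log ρ) g (m * x) (M / m * t))
  rw [card_range] at hcs
  refine hcs.trans ?_
  have h2 : ∑ α ∈ range q, (∑ m ∈ (Dv ρ M j).filter (fun m => m ≡ α [MOD q]),
        phr q u0 v0 T Y 0 g (m * x) (M / m * t) -
      ∑ m ∈ (DvR ρ M j R).filter (fun m => m ≡ α [MOD q]),
        phr q u0 v0 (T / ρ ^ R) (Y * ρ ^ R) (R * Real.log ρ) g (m * x) (M / m * t)) ^ 2 ≤
      ∑ α ∈ range q, (1 / 4) * (Df q ρ M j R α g (Real.log M + Real.log t)) ^ 2 :=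
    sum_le_sum fun α _ => class_diff hq hqw hM hM1 hρ hT hY hg hx ht
  rw [← mul_sum] at h2
  calc (q : ℝ) * ∑ α ∈ range q, (∑ m ∈ (Dv ρ M j).filter (fun m => m ≡ α [MOD q]),
        phr q u0 v0 T Y 0 g (m * x) (M / m * t) -
      ∑ m ∈ (DvR ρ M j R).filter (fun m => m ≡ α [MOD q]),
        phr q u0 v0 (T / ρ ^ R) (Y * ρ ^ R) (R * Real.log ρ) g (m * x) (M / m * t)) ^ 2
      ≤ q * ((1 / 4) * ∑ α ∈ range q, (Df q ρ M j R α g (Real.log M + Real.log t)) ^ 2) :=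
        mul_le_mul_of_nonneg_left h2 (Nat.cast_nonneg q)
    _ = _ := by ring

/-- the bound of `DDr` for one `M` and one window -/
theorem DDr_one {W : ℕ → ℝ} {q u0 v0 w y M K B T j R : ℕ} {ρ CD : ℝ} {g : ℝ → ℝ} (hW : ∀ n, 0 ≤ W n)
    (hCD : 0 < CD) (hq : 1 ≤ q)
    (hqw : q ≤ w) (hM : M ∣ PP w y) (hM1 : 1 ≤ M) (hρ : 1 < ρ) (hK : 1 ≤ K) (hB : 1 ≤ B)
    (hg : ∀ s, Real.log ((K : ℝ) * (B : ℝ)) < s → g s = 0)
    (hU : ∀ α : ℕ,
      ∑ x ∈ Icc 1 ⌊(T : ℝ) / ρ ^ (j + 1)⌋₊, ∑ t ∈ Icc 1 ⌊(K : ℝ) * B * ρ ^ (j + 1) / M⌋₊,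
        rg w y x * rg w y t * W (M * x * t) *
        (Df q ρ M j R α g (Real.log M + Real.log t)) ^ 2 ≤
        CD * ((M : ℝ) / Nat.totient M) * VW w y ^ 2 *
          ((⌊(T : ℝ) / ρ ^ (j + 1)⌋₊ : ℝ) * ⌊(K : ℝ) * B * ρ ^ (j + 1) / M⌋₊) *
          ((∫ s : ℝ, (Df q ρ M j R α g s) ^ 2) + 1 / Real.log B))
    (r5 : (⌊(T : ℝ) / ρ ^ (j + 1)⌋₊ : ℝ) * ⌊(K : ℝ) * B * ρ ^ (j + 1) / M⌋₊ ≤ T * (K * B) / M) :
    DDr (phr q u0 v0 T ((K : ℝ) * B) 0 g)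
      (phr q u0 v0 ((T : ℝ) / ρ ^ R) ((K : ℝ) * B * ρ ^ R) (R * Real.log ρ) g)
      W w y ρ T ((K : ℝ) * B) M j R ≤
      CD * K * q * ((T : ℝ) * B) * (VW w y ^ 2 * ∑ α ∈ range q, (1 / (Nat.totient M : ℝ)) *
        ((∫ s : ℝ, (Df q ρ M j R α g s) ^ 2) + 1 / Real.log B)) := by
  classical
  set X := ⌊(T : ℝ) / ρ ^ (j + 1)⌋₊ with hX
  set Y := ⌊(K : ℝ) * B * ρ ^ (j + 1) / M⌋₊ with hY
  have hB1 : (1 : ℝ) ≤ B := by exact_mod_cast hB
  have hK1 : (1 : ℝ) ≤ K := by exact_mod_cast hK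
  have hlogB : 0 ≤ Real.log B := Real.log_nonneg hB1
  have hI : ∀ α : ℕ, 0 ≤ (∫ s : ℝ, (Df q ρ M j R α g s) ^ 2) + 1 / Real.log B := by
    intro α
    apply add_nonneg
    · exact integral_nonneg fun s => sq_nonneg _
    · positivity
  -- step 1
  have s1 : DDr (phr q u0 v0 T ((K : ℝ) * B) 0 g)
      (phr q u0 v0 ((T : ℝ) / ρ ^ R) ((K : ℝ) * B * ρ ^ R) (R * Real.log ρ) g)
      W w y ρ T ((K : ℝ) * B) M j R ≤
      ∑ x ∈ Icc 1 X, ∑ t ∈ Icc 1 Y, rg w y x * rg w y t * W (M * x * t) *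
        ((q / 4) * ∑ α ∈ range q, (Df q ρ M j R α g (Real.log M + Real.log t)) ^ 2) := by
    unfold DDr
    refine sum_le_sum fun x hx => sum_le_sum fun t ht => ?_
    apply mul_le_mul_of_nonneg_left
    · exact window_diff hq hqw hM hM1 hρ (Nat.cast_nonneg T) (by positivity) hg hx (mem_Icc.1 ht).1
    · exact mul_nonneg (mul_nonneg (rg_nonneg _ _ _) (rg_nonneg _ _ _)) (hW _)
  refine s1.trans ?_
  -- step 2: interchange
  have s2 : ∑ x ∈ Icc 1 X, ∑ t ∈ Icc 1 Y, rg w y x * rg w y t * W (M * x * t) *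
        ((q / 4) * ∑ α ∈ range q, (Df q ρ M j R α g (Real.log M + Real.log t)) ^ 2) =
      (q / 4) * ∑ α ∈ range q, ∑ x ∈ Icc 1 X, ∑ t ∈ Icc 1 Y,
        rg w y x * rg w y t * W (M * x * t) * (Df q ρ M j R α g (Real.log M + Real.log t)) ^ 2 := by
    rw [mul_sum]
    simp only [mul_sum]
    rw [sum_comm (s := range q)]
    refine sum_congr rfl fun x _ => ?_
    rw [sum_comm (s := range q)]
    refine sum_congr rfl fun t _ => ?_
    refine sum_congr rfl fun α _ => ?_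
    ring
  rw [s2]
  have s3 : ∀ α ∈ range q, ∑ x ∈ Icc 1 X, ∑ t ∈ Icc 1 Y,
        rg w y x * rg w y t * W (M * x * t) * (Df q ρ M j R α g (Real.log M + Real.log t)) ^ 2 ≤
      CD * (T * (K * B)) * (VW w y ^ 2 * (1 / Nat.totient M)) *
        ((∫ s : ℝ, (Df q ρ M j R α g s) ^ 2) + 1 / Real.log B) := by
    intro α _
    have hb := box_le (a := CD) (V := VW w y ^ 2) hM1 hCD.le (by positivity) r5
    exact (hU α).trans (mul_le_mul_of_nonneg_right hb (hI α))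
  have hSn : ∀ α ∈ range q, 0 ≤ CD * (T * (K * B)) * (VW w y ^ 2 * (1 / Nat.totient M)) *
        ((∫ s : ℝ, (Df q ρ M j R α g s) ^ 2) + 1 / Real.log B) := by
    intro α _
    exact mul_nonneg (by positivity) (hI α)
  calc (q / 4 : ℝ) * ∑ α ∈ range q, ∑ x ∈ Icc 1 X, ∑ t ∈ Icc 1 Y,
        rg w y x * rg w y t * W (M * x * t) * (Df q ρ M j R α g (Real.log M + Real.log t)) ^ 2
      ≤ (q / 4 : ℝ) * ∑ α ∈ range q, CD * (T * (K * B)) * (VW w y ^ 2 * (1 / Nat.totient M)) *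
        ((∫ s : ℝ, (Df q ρ M j R α g s) ^ 2) + 1 / Real.log B) :=
        mul_le_mul_of_nonneg_left (sum_le_sum s3) (by positivity)
    _ ≤ (q : ℝ) * ∑ α ∈ range q, CD * (T * (K * B)) * (VW w y ^ 2 * (1 / Nat.totient M)) *
        ((∫ s : ℝ, (Df q ρ M j R α g s) ^ 2) + 1 / Real.log B) := by
        apply mul_le_mul_of_nonneg_right _ (sum_nonneg hSn)
        have : (0 : ℝ) ≤ q := Nat.cast_nonneg q
        linarith
    _ = _ := by
        simp only [mul_sum]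
        refine sum_congr rfl fun α _ => ?_
        ring

/-- the bound of `AAr` for one `M` and one window -/
theorem AAr_one {W : ℕ → ℝ} {w y M K B T j k D : ℕ} {ρ C0 : ℝ} (hC0 : 0 < C0) (hD : 1 ≤ D)
    (hU1 : U1b C0 k B (8 * D) W) (hw : 1 ≤ w) (hwy : w ≤ y) (hyk : y ^ k ≤ B) (hMk : M ^ k ≤ B)
    (hM : M ∣ PP w y) (hM1 : 1 ≤ M) (hB : 1 ≤ B)
    (r1 : B ≤ ⌊(T : ℝ) / ρ ^ (j + 1)⌋₊ ^ (4 * D)) (r2 : ⌊(T : ℝ) / ρ ^ (j + 1)⌋₊ ≤ B ^ (4 * D))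
    (r3 : B ≤ ⌊(K : ℝ) * B * ρ ^ (j + 1) / M⌋₊ ^ (4 * D))
    (r4 : ⌊(K : ℝ) * B * ρ ^ (j + 1) / M⌋₊ ≤ B ^ (4 * D))
    (r5 : (⌊(T : ℝ) / ρ ^ (j + 1)⌋₊ : ℝ) * ⌊(K : ℝ) * B * ρ ^ (j + 1) / M⌋₊ ≤ T * (K * B) / M) :
    AAr W w y ρ T ((K : ℝ) * B) M j ≤
      C0 * (K * ((T : ℝ) * B)) * (VW w y ^ 2 * (1 / (Nat.totient M : ℝ))) := by
  unfold AAr
  set X := ⌊(T : ℝ) / ρ ^ (j + 1)⌋₊ with hX
  set Y := ⌊(K : ℝ) * B * ρ ^ (j + 1) / M⌋₊ with hY
  have hX1 : 1 ≤ X := by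
    by_contra hcon
    have h0 : X = 0 := by omega
    rw [h0, zero_pow (by omega)] at r1
    omega
  have hY1 : 1 ≤ Y := by
    by_contra hcon
    have h0 : Y = 0 := by omega
    rw [h0, zero_pow (by omega)] at r3
    omega
  have h1 := hU1 w y M X 0 Y hw hwy hyk hMk hM
    (r1.trans (Nat.pow_le_pow_right hX1 (by omega)))
    (r2.trans (Nat.pow_le_pow_right hB (by omega)))
    (Nat.zero_le _)
    (by
      rw [Nat.sub_zero]
      exact r3.trans (Nat.pow_le_pow_right hY1 (by omega)))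
    (r4.trans (Nat.pow_le_pow_right hB (by omega)))
  have h2 : ∑ x ∈ Icc 1 X, ∑ t ∈ Icc 1 Y, rg w y x * rg w y t * W (M * x * t) =
      ∑ x ∈ Icc 1 X, ∑ t ∈ Ioc 0 Y, rg w y x * rg w y t * W (M * x * t) :=
    sum_congr rfl fun x _ =>
      Pool.Agent.N545.QG.sum_Icc_Ioc Y fun t => rg w y x * rg w y t * W (M * x * t)
  rw [h2]
  refine h1.trans ?_
  have hV0 := VW_pos w y
  have h3 : (X : ℝ) * ((Y : ℝ) - ((0 : ℕ) : ℝ)) ≤ T * (K * B) / M := by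
    push_cast
    rw [sub_zero]
    exact r5
  have hb := box_le (a := C0) (V := VW w y ^ 2) (X := X) (Y := Y) hM1 hC0.le (by positivity) r5
  rw [Nat.cast_zero, sub_zero]
  refine hb.trans (le_of_eq ?_)
  ring

/-- sums over `M` and the windows -/
theorem MJ_sumR {w y M0 R : ℕ} {ρ R' : ℝ} {f h : ℕ → ℕ → ℝ} (hR : 0 ≤ R') (hh : ∀ M j, 0 ≤ h M j)
    (hf : ∀ M ∈ (PP w y).divisors.filter (fun M => M ≤ M0), ∀ j ∈ WnR ρ M R,
      f M j ≤ R' * (VW w y ^ 2 * h M j)) :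
    ∑ M ∈ (PP w y).divisors.filter (fun M => M ≤ M0), ∑ j ∈ WnR ρ M R, f M j ≤
      R' * (VW w y ^ 2 * ∑ M ∈ (PP w y).divisors, ∑ j ∈ WnR ρ M R, h M j) := by
  have h1 : ∑ M ∈ (PP w y).divisors.filter (fun M => M ≤ M0), ∑ j ∈ WnR ρ M R, f M j ≤
      ∑ M ∈ (PP w y).divisors.filter (fun M => M ≤ M0), ∑ j ∈ WnR ρ M R,
        R' * (VW w y ^ 2 * h M j) :=
    sum_le_sum fun M hM => sum_le_sum fun j hj => hf M hM j hj
  have h2 : ∑ M ∈ (PP w y).divisors.filter (fun M => M ≤ M0), ∑ j ∈ WnR ρ M R,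
        R' * (VW w y ^ 2 * h M j) ≤
      ∑ M ∈ (PP w y).divisors, ∑ j ∈ WnR ρ M R, R' * (VW w y ^ 2 * h M j) := by
    apply sum_le_sum_of_subset_of_nonneg (filter_subset _ _)
    intro M _ _
    exact sum_nonneg fun j _ => mul_nonneg hR (mul_nonneg (sq_nonneg _) (hh M j))
  refine h1.trans (h2.trans (le_of_eq ?_))
  simp only [mul_sum]

theorem card_WnR (ρ : ℝ) (M R : ℕ) : (WnR ρ M R).card ≤ 2 * (Wn ρ M).card := by
  unfold WnR
  refine (card_union_le _ _).trans ?_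
  have := card_image_le (s := Wn ρ M) (f := fun j => j + R)
  omega

theorem EK_R {w y R : ℕ} {ρ EK : ℝ}
    (h : VW w y ^ 2 * ∑ M ∈ (PP w y).divisors, ((Wn ρ M).card : ℝ) / (Nat.totient M : ℝ) ≤ EK) :
    VW w y ^ 2 * ∑ M ∈ (PP w y).divisors, ∑ j ∈ WnR ρ M R, (1 / (Nat.totient M : ℝ)) ≤
      2 * EK := by
  have h1 : ∑ M ∈ (PP w y).divisors, ∑ j ∈ WnR ρ M R, (1 / (Nat.totient M : ℝ)) ≤
      2 * ∑ M ∈ (PP w y).divisors, ((Wn ρ M).card : ℝ) / (Nat.totient M : ℝ) := by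
    rw [mul_sum]
    refine sum_le_sum fun M _ => ?_
    rw [sum_const, nsmul_eq_mul]
    have h2 : ((WnR ρ M R).card : ℝ) ≤ 2 * (Wn ρ M).card := by exact_mod_cast card_WnR ρ M R
    calc ((WnR ρ M R).card : ℝ) * (1 / (Nat.totient M : ℝ))
        ≤ 2 * (Wn ρ M).card * (1 / (Nat.totient M : ℝ)) :=
          mul_le_mul_of_nonneg_right h2 (by positivity)
      _ = _ := by ring
  have h3 := mul_le_mul_of_nonneg_left h1 (sq_nonneg (VW w y))
  linarith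

end

end Pool.Agent.N80.QH
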